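import Mathlib

/-!
# A5: a continuous midpoint convex function on an interval is convex
-/

set_option autoImplicit false

namespace Pool.Agent.H18TB

/-- Proof.  If `a = b` trivial.  Let `l s = ((b - s) * f a + (s - a) * f b) / (b - a)` and
`h s = f s - l s`; `h` is continuous on `[a, b]`, `h a = h b = 0` and
`h ((s + t) / 2) ≤ (h s + h t) / 2`.  Let `t₀` be a point where `h` is maximal on `[a, b]`
(`IsCompact.exists_isMaxOn`), `S = h t₀`.  With `δ = min (t₀ - a) (b - t₀)` one of `t₀ - δ`,
`t₀ + δ` is an endpoint, both are in `[a, b]`, so `S ≤ (0 + S) / 2`, that is `S ≤ 0`. -/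
theorem convex_of_mid {f : ℝ → ℝ} {a b : ℝ} (hc : ContinuousOn f (Set.Icc a b))
    (hm : ∀ s ∈ Set.Icc a b, ∀ t ∈ Set.Icc a b, f ((s + t) / 2) ≤ (f s + f t) / 2)
    {t : ℝ} (ht : t ∈ Set.Icc a b) :
    (b - a) * f t ≤ (b - t) * f a + (t - a) * f b := by
  rcases eq_or_lt_of_le (ht.1.trans ht.2) with hab | hab
  · have h1 : t = a := le_antisymm (hab ▸ ht.2) ht.1
    rw [h1, ← hab]
    simp
  set h : ℝ → ℝ := fun s => f s - ((b - s) * f a + (s - a) * f b) / (b - a) with hdef
  have hba : 0 < b - a := by linarith
  have hhc : ContinuousOn h (Set.Icc a b) := by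
    refine hc.sub (Continuous.continuousOn ?_)
    exact ((((continuous_const.sub continuous_id).mul continuous_const)).add
      ((continuous_id.sub continuous_const).mul continuous_const)).div_const _
  have ha0 : h a = 0 := by
    simp only [hdef]
    field_simp
    ring
  have hb0 : h b = 0 := by
    simp only [hdef]
    field_simp
    ring
  have hmid : ∀ s ∈ Set.Icc a b, ∀ t ∈ Set.Icc a b, h ((s + t) / 2) ≤ (h s + h t) / 2 := by
    intro s hs t ht
    have h1 := hm s hs t ht
    have e : ((b - (s + t) / 2) * f a + ((s + t) / 2 - a) * f b) / (b - a) =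
        (((b - s) * f a + (s - a) * f b) / (b - a) +
          ((b - t) * f a + (t - a) * f b) / (b - a)) / 2 := by
      field_simp
      ring
    simp only [hdef]
    rw [e]
    linarith
  obtain ⟨t₀, ht₀, hmax⟩ := isCompact_Icc.exists_isMaxOn (Set.nonempty_Icc.mpr hab.le) hhc
  have hmax' : ∀ s ∈ Set.Icc a b, h s ≤ h t₀ := fun s hs => hmax hs
  have hS : h t₀ ≤ 0 := by
    rcases le_total (t₀ - a) (b - t₀) with hle | hle
    · have h2 : 2 * t₀ - a ∈ Set.Icc a b := ⟨by linarith [ht₀.1], by linarith⟩
      have h3 := hmid a ⟨le_rfl, hab.le⟩ (2 * t₀ - a) h2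
      have e : (a + (2 * t₀ - a)) / 2 = t₀ := by ring
      rw [e, ha0] at h3
      have h4 := hmax' _ h2
      linarith
    · have h2 : 2 * t₀ - b ∈ Set.Icc a b := ⟨by linarith, by linarith [ht₀.2]⟩
      have h3 := hmid b ⟨hab.le, le_rfl⟩ (2 * t₀ - b) h2
      have e : (b + (2 * t₀ - b)) / 2 = t₀ := by ring
      rw [e, hb0] at h3
      have h4 := hmax' _ h2
      linarith
  have h5 : h t ≤ 0 := (hmax' t ht).trans hS
  simp only [hdef] at h5
  rw [sub_nonpos, le_div_iff₀ hba] at h5
  linarith

/-- A function which lies below its chords from `0` and below `A + ε * t` lies below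
`g 0 + ε * t`.  Proof: for `T ≥ t`, `T > 0`,
`g t ≤ g 0 + ε * t + (t / T) * (A - g 0)`; let `T → ∞`. -/
theorem growth {g : ℝ → ℝ} {A ε : ℝ}
    (hg : ∀ T t : ℝ, 0 ≤ t → t ≤ T → T * g t ≤ (T - t) * g 0 + t * g T)
    (hA : ∀ t : ℝ, 0 ≤ t → g t ≤ A + ε * t) {t : ℝ} (ht : 0 ≤ t) :
    g t ≤ g 0 + ε * t := by
  by_contra hcon
  rw [not_le] at hcon
  set c : ℝ := g t - (g 0 + ε * t) with hc
  have hc0 : 0 < c := by rw [hc]; linarith
  set T : ℝ := max t (t * (A - g 0) / c + 1) with hT
  have hT1 : t ≤ T := le_max_left _ _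
  have hT2 : t * (A - g 0) / c + 1 ≤ T := le_max_right _ _
  have h1 := hg T t ht hT1
  have h2 := mul_le_mul_of_nonneg_left (hA T (ht.trans hT1)) ht
  have h3 : T * c ≤ t * (A - g 0) := by
    rw [hc]
    nlinarith
  have h4 : t * (A - g 0) / c < T := by linarith
  rw [div_lt_iff₀ hc0] at h4
  linarith

/-- A convex function on the line which is bounded above is constant.  Proof: for `s ≠ t`, apply
`growth` with `ε = 0` to `x ↦ g (s + x)` and to `x ↦ g (s - x)`. -/
theorem const_of_bdd {g : ℝ → ℝ} {B : ℝ}
    (hg : ∀ a b t : ℝ, a ≤ t → t ≤ b → (b - a) * g t ≤ (b - t) * g a + (t - a) * g b)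
    (hB : ∀ t : ℝ, g t ≤ B) (s t : ℝ) : g s = g t := by
  have key : ∀ s t : ℝ, g t ≤ g s := by
    intro s t
    rcases le_total s t with hst | hst
    · have h1 := growth (g := fun x => g (s + x)) (A := B) (ε := 0)
        (fun T x hx hxT => by
          have := hg s (s + T) (s + x) (by linarith) (by linarith)
          simp only [add_zero]
          have e1 : s + T - s = T := by ring
          have e2 : s + T - (s + x) = T - x := by ring
          have e3 : s + x - s = x := by ring
          rw [e1, e2, e3] at this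
          exact this)
        (fun x _ => by rw [zero_mul, add_zero]; exact hB _) (t := t - s) (by linarith)
      simp only [add_zero, zero_mul] at h1
      have e : s + (t - s) = t := by ring
      rw [e] at h1
      exact h1
    · have h1 := growth (g := fun x => g (s - x)) (A := B) (ε := 0)
        (fun T x hx hxT => by
          have := hg (s - T) s (s - x) (by linarith) (by linarith)
          simp only [sub_zero]
          have e1 : s - (s - T) = T := by ring
          have e2 : s - (s - x) = x := by ring
          have e3 : s - x - (s - T) = T - x := by ring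
          rw [e1, e2, e3] at this
          linarith)
        (fun x _ => by rw [zero_mul, add_zero]; exact hB _) (t := s - t) (by linarith)
      simp only [sub_zero, add_zero, zero_mul] at h1
      have e : s - (s - t) = t := by ring
      rw [e] at h1
      exact h1
  exact le_antisymm (key t s) (key s t)

end Pool.Agent.H18TB
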