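import Pool.Agent.Lib.H18TB.Defs

/-!
# AA: a pointwise Arzela-Ascoli theorem
-/

set_option autoImplicit false

namespace Pool.Agent.H18TB

open Filter Topology Metric

/-- Proof.  `hb` gives for every `t` an `R t` with `dist (f n t) o ≤ R t` for all `n` (the finitely
many remaining `n` are absorbed).  Let `d : ℕ → T` be dense (`TopologicalSpace.denseSeq`, if `T` is
empty the claim is trivial).  The sequence `n ↦ (k ↦ f n (d k))` lies in the compact set
`Set.pi Set.univ (fun k => closedBall o (R (d k)))` of `ℕ → X` (`isCompact_univ_pi`), so it has a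
convergent subsequence `φ` (`IsCompact.tendsto_subseq`).  For every `t` the sequence
`f (φ n) t` is Cauchy: given `ε > 0` choose `k` with `dist (d k) t < ε / 3`; then
`dist (f (φ n) t) (f (φ m) t) ≤ dist t (d k) + dist (f (φ n) (d k)) (f (φ m) (d k)) + dist (d k) t`
for large `n`, `m`.  `X` is complete, so it converges. -/
theorem arzela {T X : Type} [MetricSpace T] [TopologicalSpace.SeparableSpace T] [MetricSpace X]
    [ProperSpace X] (f : ℕ → T → X) (o : X)
    (hb : ∀ t : T, ∃ R : ℝ, ∀ᶠ n in atTop, dist (f n t) o ≤ R)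
    (hl : ∀ s t : T, ∀ᶠ n in atTop, dist (f n s) (f n t) ≤ dist s t) :
    ∃ φ : ℕ → ℕ, StrictMono φ ∧ ∃ F : T → X, ∀ t : T, Tendsto (fun n => f (φ n) t) atTop (𝓝 (F t)) := by
  rcases isEmpty_or_nonempty T with hT | hT
  · exact ⟨id, strictMono_id, fun t => isEmptyElim t, fun t => isEmptyElim t⟩
  have hb' : ∀ t : T, ∃ R : ℝ, ∀ n, dist (f n t) o ≤ R := by
    intro t
    obtain ⟨R, hR⟩ := hb t
    obtain ⟨N, hN⟩ := eventually_atTop.1 hR
    refine ⟨max R (∑ n ∈ Finset.range N, dist (f n t) o), fun n => ?_⟩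
    by_cases hn : N ≤ n
    · exact (hN n hn).trans (le_max_left _ _)
    · refine le_trans ?_ (le_max_right _ _)
      exact Finset.single_le_sum (f := fun n => dist (f n t) o) (fun i _ => dist_nonneg)
        (Finset.mem_range.2 (not_le.1 hn))
  choose R hR using hb'
  have hd := TopologicalSpace.denseRange_denseSeq T
  set d := TopologicalSpace.denseSeq T with hdd
  have hcomp : IsCompact (Set.pi Set.univ (fun k : ℕ => closedBall o (R (d k)))) :=
    isCompact_univ_pi fun k => isCompact_closedBall o _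
  obtain ⟨a, -, φ, hφ, hφa⟩ := hcomp.tendsto_subseq (x := fun n k => f n (d k))
    (fun n k _ => mem_closedBall.2 (hR (d k) n))
  have ha : ∀ k, Tendsto (fun n => f (φ n) (d k)) atTop (𝓝 (a k)) := fun k =>
    (tendsto_pi_nhds.1 hφa) k
  have hcau : ∀ t : T, CauchySeq (fun n => f (φ n) t) := by
    intro t
    rw [Metric.cauchySeq_iff]
    intro ε hε
    obtain ⟨k, hk⟩ := hd.exists_dist_lt t (by positivity : (0 : ℝ) < ε / 4)
    obtain ⟨N1, hN1⟩ := eventually_atTop.1 (hφ.tendsto_atTop.eventually (hl t (d k)))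
    obtain ⟨N2, hN2⟩ := Metric.cauchySeq_iff.1 (ha k).cauchySeq (ε / 4) (by positivity)
    refine ⟨max N1 N2, fun m hm n hn => ?_⟩
    have h1 := hN1 m ((le_max_left _ _).trans hm)
    have h2 := hN1 n ((le_max_left _ _).trans hn)
    have h3 := hN2 m ((le_max_right _ _).trans hm) n ((le_max_right _ _).trans hn)
    calc dist (f (φ m) t) (f (φ n) t) ≤ dist (f (φ m) t) (f (φ m) (d k)) +
          dist (f (φ m) (d k)) (f (φ n) (d k)) + dist (f (φ n) (d k)) (f (φ n) t) :=
          dist_triangle4 _ _ _ _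
      _ < ε := by
          rw [dist_comm (f (φ n) (d k))]
          linarith
  choose F hF using fun t => cauchySeq_tendsto_of_complete (hcau t)
  exact ⟨φ, hφ, F, hF⟩

end Pool.Agent.H18TB
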