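import Pool.Agent.Lib.H18TB.M1
import Pool.Agent.Lib.H18TB.A5

/-!
# G2: convexity of distances along geodesics, rays and lines
-/

set_option autoImplicit false

namespace Pool.Agent.H18TB

open Filter Topology Metric

variable {X : Type} [MetricSpace X]

private theorem G2_cont {γ : ℝ → X} {a b α : ℝ} (h : IsAff γ a b α) :
    ContinuousOn γ (Set.Icc a b) := by
  rw [Metric.continuousOn_iff]
  intro t ht ε hε
  have hα : 0 < |α| + 1 := by positivity
  refine ⟨ε / (|α| + 1), div_pos hε hα, fun s hs hst => ?_⟩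
  rw [h s hs t ht]
  rw [Real.dist_eq, lt_div_iff₀ hα] at hst
  calc α * |s - t| ≤ |α| * |s - t| := mul_le_mul_of_nonneg_right (le_abs_self α) (abs_nonneg _)
    _ ≤ |s - t| * (|α| + 1) := by nlinarith [abs_nonneg (s - t), abs_nonneg α]
    _ < ε := hst

/-- Proof: `convex_of_mid` for `s ↦ dist (γ s) (γ' s)`, with `IsAff.mid` and `dist_mid_mid`;
continuity since `γ`, `γ'` are Lipschitz on `[a, b]`. -/
theorem dist_convex (hX : IsCAT0 X) {γ γ' : ℝ → X} {a b α α' : ℝ} (h : IsAff γ a b α)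
    (h' : IsAff γ' a b α') {t : ℝ} (ht : t ∈ Set.Icc a b) :
    (b - a) * dist (γ t) (γ' t) ≤ (b - t) * dist (γ a) (γ' a) + (t - a) * dist (γ b) (γ' b) :=
  convex_of_mid (f := fun s => dist (γ s) (γ' s))
    (continuous_dist.comp_continuousOn (ContinuousOn.prodMk (G2_cont h) (G2_cont h')))
    (fun _ hs _ ht => dist_mid_mid hX (h.mid hs ht) (h'.mid hs ht)) ht

/-- Proof: `convex_of_mid` for `s ↦ infDist (γ s) S`, with `IsAff.mid` and `infDist_mid`. -/
theorem infDist_convex (hX : IsCAT0 X) {S : Set X} (hS : MidClosed S) (hne : S.Nonempty)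
    {γ : ℝ → X} {a b α : ℝ} (h : IsAff γ a b α) {t : ℝ} (ht : t ∈ Set.Icc a b) :
    (b - a) * infDist (γ t) S ≤ (b - t) * infDist (γ a) S + (t - a) * infDist (γ b) S :=
  convex_of_mid (f := fun s => infDist (γ s) S)
    ((continuous_infDist_pt S).comp_continuousOn (G2_cont h))
    (fun _ hs _ ht => infDist_mid hX hS hne (h.mid hs ht)) ht

theorem IsRay.isAff {c : ℝ → X} (hc : IsRay c) (T : ℝ) : IsAff c 0 T 1 := by
  intro s hs t ht
  rw [one_mul]
  exact hc s t hs.1 ht.1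

theorem IsLine.isAff {L : ℝ → X} (hL : IsLine L) (a b : ℝ) : IsAff L a b 1 := by
  intro s hs t ht
  rw [one_mul]
  exact hL s t

theorem IsLine.isRay {L : ℝ → X} (hL : IsLine L) : IsRay L := fun s t _ _ => hL s t

theorem IsLine.shift {L : ℝ → X} (hL : IsLine L) (a : ℝ) : IsLine (fun t => L (t + a)) := by
  intro s t
  have := hL (s + a) (t + a)
  rw [this]
  congr 1
  ring

theorem IsLine.neg {L : ℝ → X} (hL : IsLine L) : IsLine (fun t => L (-t)) := by
  intro s t
  show dist (L (-s)) (L (-t)) = _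
  rw [hL (-s) (-t), show -s - -t = -(s - t) by ring, abs_neg]

theorem IsRay.shift {c : ℝ → X} (hc : IsRay c) {a : ℝ} (ha : 0 ≤ a) :
    IsRay (fun t => c (a + t)) := by
  intro s t hs ht
  have := hc (a + s) (a + t) (by linarith) (by linarith)
  rw [this]
  congr 1
  ring

/-- Proof: `growth` for `t ↦ dist (c t) (c' t)`, with `dist_convex`. -/
theorem ray_growth (hX : IsCAT0 X) {c c' : ℝ → X} (hc : IsRay c) (hc' : IsRay c') {A ε : ℝ}
    (h : ∀ t : ℝ, 0 ≤ t → dist (c t) (c' t) ≤ A + ε * t) {t : ℝ} (ht : 0 ≤ t) :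
    dist (c t) (c' t) ≤ dist (c 0) (c' 0) + ε * t :=
  growth (g := fun t => dist (c t) (c' t)) (A := A) (fun T _ h0 hT => by
    have h1 := dist_convex hX (hc.isAff T) (hc'.isAff T) ⟨h0, hT⟩
    rwa [sub_zero, sub_zero] at h1) h ht

/-- Proof: `growth` for `t ↦ infDist (c t) S`, with `infDist_convex`. -/
theorem ray_infDist_growth (hX : IsCAT0 X) {S : Set X} (hS : MidClosed S) (hne : S.Nonempty)
    {c : ℝ → X} (hc : IsRay c) {A ε : ℝ}
    (h : ∀ t : ℝ, 0 ≤ t → infDist (c t) S ≤ A + ε * t) {t : ℝ} (ht : 0 ≤ t) :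
    infDist (c t) S ≤ infDist (c 0) S + ε * t :=
  growth (g := fun t => infDist (c t) S) (A := A) (fun T _ h0 hT => by
    have h1 := infDist_convex hX hS hne (hc.isAff T) ⟨h0, hT⟩
    rwa [sub_zero, sub_zero] at h1) h ht

/-- Proof: `const_of_bdd`, with `dist_convex`. -/
theorem line_dist_const (hX : IsCAT0 X) {L L' : ℝ → X} (hL : IsLine L) (hL' : IsLine L')
    {D : ℝ} (h : ∀ t : ℝ, dist (L t) (L' t) ≤ D) (s t : ℝ) :
    dist (L s) (L' s) = dist (L t) (L' t) :=
  const_of_bdd (g := fun t => dist (L t) (L' t)) (B := D)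
    (fun a b _ ha hb => dist_convex hX (hL.isAff a b) (hL'.isAff a b) ⟨ha, hb⟩) h s t

/-- Proof: `const_of_bdd`, with `infDist_convex`. -/
theorem line_infDist_const (hX : IsCAT0 X) {S : Set X} (hS : MidClosed S) (hne : S.Nonempty)
    {L : ℝ → X} (hL : IsLine L) {D : ℝ} (h : ∀ t : ℝ, infDist (L t) S ≤ D) (s t : ℝ) :
    infDist (L s) S = infDist (L t) S :=
  const_of_bdd (g := fun t => infDist (L t) S) (B := D)
    (fun a b _ ha hb => infDist_convex hX hS hne (hL.isAff a b) ⟨ha, hb⟩) h s t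

end Pool.Agent.H18TB
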