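import Pool.Agent.Lib.H18TB.G1
import Pool.Agent.Lib.H18TB.G2
import Pool.Agent.Lib.H18TB.AA

/-!
# AR: asymptotic rays
-/

set_option autoImplicit false

namespace Pool.Agent.H18TB

open Filter Topology Metric

variable {X : Type} [MetricSpace X] [ProperSpace X]

/-- Points at equal time on a segment from `p` to `c n` and on the ray.  Proof.  Let
`d = dist p (c n)`, `D = dist p (c 0)`, `l = t / n`.  The maps
`s ↦ γ (s * d)` and `s ↦ c (s * n)` are affine geodesics on `[0, 1]` (speeds `d` and `n`), so by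
`dist_convex` `dist (γ (l * d)) (c (l * n)) ≤ (1 - l) * D`; and
`dist (γ t) (γ (l * d)) = |t - l * d| = l * |n - d| ≤ l * D`. -/
theorem segment_ray_bound (hX : IsCAT0 X) {c : ℝ → X} (hc : IsRay c) {p : X} {n : ℝ}
    (hn : 0 < n) {γ : ℝ → X} (hγ : IsAff γ 0 (dist p (c n)) 1) (h0 : γ 0 = p)
    (h1 : γ (dist p (c n)) = c n) {t : ℝ} (ht0 : 0 ≤ t) (htn : t ≤ n)
    (htd : t ≤ dist p (c n)) : dist (γ t) (c t) ≤ dist p (c 0) := by
  set d := dist p (c n) with hd
  set D := dist p (c 0) with hD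
  have hd0 : 0 ≤ d := dist_nonneg
  set l := t / n with hl
  have hl0 : 0 ≤ l := div_nonneg ht0 hn.le
  have hl1 : l ≤ 1 := (div_le_one hn).2 htn
  have hln : l * n = t := div_mul_cancel₀ t hn.ne'
  have hA : IsAff (fun s => γ (s * d)) 0 1 d := by
    intro s hs s' hs'
    have h1 := hγ (s * d) ⟨mul_nonneg hs.1 hd0, by nlinarith [hs.2]⟩ (s' * d)
      ⟨mul_nonneg hs'.1 hd0, by nlinarith [hs'.2]⟩
    show dist (γ (s * d)) (γ (s' * d)) = _
    rw [h1, one_mul, ← sub_mul, abs_mul, abs_of_nonneg hd0, mul_comm]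
  have hB : IsAff (fun s => c (s * n)) 0 1 n := by
    intro s hs s' hs'
    have h1 := hc (s * n) (s' * n) (mul_nonneg hs.1 hn.le) (mul_nonneg hs'.1 hn.le)
    show dist (c (s * n)) (c (s' * n)) = _
    rw [h1, ← sub_mul, abs_mul, abs_of_nonneg hn.le, mul_comm]
  have hconv := dist_convex hX hA hB (t := l) ⟨hl0, hl1⟩
  simp only [zero_mul, one_mul, h0, h1, sub_zero, dist_self, mul_zero, add_zero, hln] at hconv
  have hseg : dist (γ t) (γ (l * d)) = |t - l * d| := by
    have := hγ t ⟨ht0, htd⟩ (l * d) ⟨mul_nonneg hl0 hd0, by nlinarith⟩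
    rw [this, one_mul]
  have hnd : |n - d| ≤ D := by
    have e : dist (c 0) (c n) = n := by
      rw [hc 0 n le_rfl hn.le, zero_sub, abs_neg, abs_of_pos hn]
    rw [abs_le]
    have t1 := dist_triangle (c 0) p (c n)
    have t2 := dist_triangle p (c 0) (c n)
    rw [e] at t1 t2
    rw [dist_comm (c 0) p] at t1
    constructor <;> linarith
  have hseg2 : |t - l * d| ≤ l * D := by
    have e : t - l * d = l * (n - d) := by rw [← hln]; ring
    rw [e, abs_mul, abs_of_nonneg hl0]
    exact mul_le_mul_of_nonneg_left hnd hl0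
  calc dist (γ t) (c t) ≤ dist (γ t) (γ (l * d)) + dist (γ (l * d)) (c t) := dist_triangle _ _ _
    _ ≤ l * D + (1 - l) * D := by rw [hseg]; exact add_le_add hseg2 hconv
    _ = D := by ring

/-- From every point there is a ray asymptotic to a given ray.  Proof.  For every `n : ℕ` let `γ n`
be a geodesic segment from `p` to `c n` (`exists_segment`); `dist p (c n) → ∞`.  By
`segment_ray_bound` the family is pointwise bounded on `[0, ∞)` for large `n`; precompose with
`t ↦ max t 0` and apply `arzela` (with `T = ℝ`) to get a limit `r` with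
`dist (r s) (r t) = |s - t|` for `s, t ≥ 0`, `r 0 = p` and `dist (r t) (c t) ≤ dist p (c 0)`. -/
theorem exists_asymptotic_ray (hX : IsCAT0 X) {c : ℝ → X} (hc : IsRay c) (p : X) :
    ∃ r : ℝ → X, IsRay r ∧ r 0 = p ∧ ∀ t : ℝ, 0 ≤ t → dist (r t) (c t) ≤ dist p (c 0) := by
  have hex : ∀ n : ℕ, ∃ γ : ℝ → X, γ 0 = p ∧ γ (dist p (c n)) = c n ∧
      IsAff γ 0 (dist p (c n)) 1 := fun n => exists_segment hX p (c n)
  choose γ h0 h1 hγ using hex
  set D := dist p (c 0) with hD
  have hlarge : ∀ T : ℝ, ∀ᶠ n : ℕ in atTop, T ≤ dist p (c n) ∧ T ≤ n ∧ (0 : ℝ) < n := by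
    intro T
    obtain ⟨N, hN⟩ := exists_nat_gt (max (T + D) (max T 0))
    refine eventually_atTop.2 ⟨N, fun n hn => ?_⟩
    have hn' : (N : ℝ) ≤ n := by exact_mod_cast hn
    have hm1 : T + D < n := lt_of_lt_of_le (lt_of_le_of_lt (le_max_left _ _) hN) hn'
    have hm2 : max T 0 < n := lt_of_lt_of_le (lt_of_le_of_lt (le_max_right _ _) hN) hn'
    have hm3 : T < n := lt_of_le_of_lt (le_max_left _ _) hm2
    have hm4 : (0 : ℝ) < n := lt_of_le_of_lt (le_max_right _ _) hm2
    have e : dist (c 0) (c n) = n := by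
      rw [hc 0 n le_rfl hm4.le, zero_sub, abs_neg, abs_of_pos hm4]
    have t1 := dist_triangle (c 0) p (c n)
    rw [e, dist_comm (c 0) p] at t1
    exact ⟨by linarith, hm3.le, hm4⟩
  have hclose : ∀ t : ℝ, 0 ≤ t → ∀ᶠ n : ℕ in atTop, dist (γ n t) (c t) ≤ D := by
    intro t ht
    filter_upwards [hlarge t] with n hn
    exact segment_ray_bound hX hc hn.2.2 (hγ n) (h0 n) (h1 n) ht hn.2.1 hn.1
  have hdist : ∀ s t : ℝ, 0 ≤ s → 0 ≤ t → ∀ᶠ n : ℕ in atTop,
      dist (γ n s) (γ n t) = |s - t| := by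
    intro s t hs ht
    filter_upwards [hlarge (max s t)] with n hn
    have := hγ n s ⟨hs, (le_max_left _ _).trans hn.1⟩ t ⟨ht, (le_max_right _ _).trans hn.1⟩
    rw [this, one_mul]
  obtain ⟨φ, hφ, F, hF⟩ := arzela (fun (n : ℕ) (t : ℝ) => γ n (max t 0)) (c 0)
    (fun t => ⟨D + max t 0, by
      filter_upwards [hclose (max t 0) (le_max_right _ _)] with n hn
      have e : dist (c (max t 0)) (c 0) = max t 0 := by
        rw [hc _ 0 (le_max_right _ _) le_rfl, sub_zero, abs_of_nonneg (le_max_right _ _)]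
      calc dist (γ n (max t 0)) (c 0) ≤ dist (γ n (max t 0)) (c (max t 0)) +
            dist (c (max t 0)) (c 0) := dist_triangle _ _ _
        _ ≤ D + max t 0 := by rw [e]; linarith⟩)
    (fun s t => by
      filter_upwards [hdist (max s 0) (max t 0) (le_max_right _ _) (le_max_right _ _)] with n hn
      rw [hn, Real.dist_eq]
      exact abs_max_sub_max_le_abs s t 0)
  refine ⟨F, ?_, ?_, ?_⟩
  · intro s t hs ht
    have l1 : Tendsto (fun n => dist (γ (φ n) (max s 0)) (γ (φ n) (max t 0))) atTop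
        (𝓝 (dist (F s) (F t))) := (hF s).dist (hF t)
    have l2 : Tendsto (fun n => dist (γ (φ n) (max s 0)) (γ (φ n) (max t 0))) atTop
        (𝓝 |s - t|) := by
      refine tendsto_const_nhds.congr' ?_
      filter_upwards [hφ.tendsto_atTop.eventually (hdist s t hs ht)] with n hn
      rw [max_eq_left hs, max_eq_left ht, hn]
    exact tendsto_nhds_unique l1 l2
  · have l1 := hF 0
    simp only [max_self, h0] at l1
    exact (tendsto_nhds_unique l1 tendsto_const_nhds)
  · intro t ht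
    have l1 : Tendsto (fun n => dist (γ (φ n) (max t 0)) (c t)) atTop (𝓝 (dist (F t) (c t))) :=
      (hF t).dist tendsto_const_nhds
    refine le_of_tendsto l1 ?_
    filter_upwards [hφ.tendsto_atTop.eventually (hclose t ht)] with n hn
    rw [max_eq_left ht]
    exact hn

end Pool.Agent.H18TB
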