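import Pool.Agent.Lib.H18TB.FL
import Pool.Agent.Lib.H18TB.AR

/-!
# C1: rays near flats
-/

set_option autoImplicit false

namespace Pool.Agent.H18TB

open Filter Topology Metric

variable {X : Type} [MetricSpace X] {k : ℕ}

/-- C1.  A ray at bounded distance from a flat is asymptotic to a ray of the flat.  Proof.  Let `r`
be the ray from `i 0` asymptotic to `c` (`exists_asymptotic_ray`).  Then
`infDist (r t) (range i) ≤ M + dist (i 0) (c 0)` for `t ≥ 0`, so by `ray_infDist_growth` (with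
`ε = 0`, `flat_midClosed`) `infDist (r t) (range i) ≤ infDist (r 0) (range i) = 0`; by `flat_nearest`
`r t = i (y t)` for some `y t`, and `euc_ray` gives `y t = t • w`. -/
theorem ray_near_flat [ProperSpace X] (hX : IsCAT0 X) {i : Euc k → X} (hi : Isometry i)
    {c : ℝ → X} (hc : IsRay c) {M : ℝ}
    (h : ∀ t : ℝ, 0 ≤ t → infDist (c t) (Set.range i) ≤ M) :
    ∃ w : Euc k, ‖w‖ = 1 ∧ ∀ t : ℝ, 0 ≤ t → dist (c t) (i (t • w)) ≤ dist (c 0) (i 0) := by
  obtain ⟨r, hr, hr0, hrc⟩ := exists_asymptotic_ray hX hc (i 0)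
  have hne : (Set.range i).Nonempty := ⟨i 0, 0, rfl⟩
  have hA : ∀ t : ℝ, 0 ≤ t →
      infDist (r t) (Set.range i) ≤ (M + dist (i 0) (c 0)) + 0 * t := by
    intro t ht
    have h1 : infDist (r t) (Set.range i) ≤ infDist (c t) (Set.range i) + dist (r t) (c t) :=
      infDist_le_infDist_add_dist
    have h2 := h t ht
    have h3 := hrc t ht
    linarith
  have hzero : ∀ t : ℝ, 0 ≤ t → infDist (r t) (Set.range i) = 0 := by
    intro t ht
    have h1 := ray_infDist_growth hX (flat_midClosed hX hi) hne hr hA ht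
    have h2 : infDist (r 0) (Set.range i) = 0 := by
      rw [hr0]; exact infDist_zero_of_mem ⟨0, rfl⟩
    rw [h2] at h1
    have h3 : 0 ≤ infDist (r t) (Set.range i) := infDist_nonneg
    linarith
  have hex : ∀ t : ℝ, ∃ x : Euc k, 0 ≤ t → r t = i x := by
    intro t
    obtain ⟨x, hx⟩ := flat_nearest hi (r t)
    refine ⟨x, fun ht => ?_⟩
    rw [hzero t ht] at hx
    exact dist_eq_zero.1 hx
  choose y hy using hex
  have hy0 : y 0 = 0 := by
    have := hy 0 le_rfl
    rw [hr0] at this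
    exact (hi.injective this).symm
  have hyd : ∀ s t : ℝ, 0 ≤ s → 0 ≤ t → dist (y s) (y t) = |s - t| := by
    intro s t hs ht
    rw [← hi.dist_eq, ← hy s hs, ← hy t ht]
    exact hr s t hs ht
  obtain ⟨hn, hlin⟩ := euc_ray hy0 hyd
  refine ⟨y 1, hn, fun t ht => ?_⟩
  rw [← hlin t ht, ← hy t ht, dist_comm, dist_comm (c 0)]
  exact hrc t ht

end Pool.Agent.H18TB
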