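import Pool.Agent.Lib.H18TB.C1

/-!
# D1A: the exit data
-/

set_option autoImplicit false

namespace Pool.Agent.H18TB

open Filter Topology Metric

variable {X : Type} [MetricSpace X] {k : ℕ}

/-- Exit data.  Proof.  Apply the negation of `InteriorDirection` with `ε = 1 / (n + 1)`: there is a
ray `c`, a constant `A` with `dist (c t) (i (t • u)) ≤ A + ε * t`, and `c` is not asymptotic to any
`t ↦ i (t • w)`, `‖w‖ = 1`.  Let `r` be the ray from `i 0` asymptotic to `c`
(`exists_asymptotic_ray`).  Then `dist (r t) (i (t • u)) ≤ (dist (i 0) (c 0) + A) + ε * t`, and by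
`ray_growth` (both rays start at `i 0`, `flat_line0` gives a ray) `dist (r t) (i (t • u)) ≤ ε * t`.
The function `f t = infDist (r t) (range i)` is continuous with `f 0 = 0`.  It is not bounded by `M`
on `[0, ∞)`: otherwise `ray_near_flat` makes `r`, hence `c`, asymptotic to some `t ↦ i (t • w)`.  By the
intermediate value theorem there is `s ≥ 0` with `f s = M`; `s > 0` since `M > 0`.  `M = f s ≤
dist (r s) (i (s • u)) ≤ s / (n + 1)`.  For `0 ≤ t ≤ s`, `infDist_convex` on `[0, s]` (with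
`flat_midClosed`) gives `s * f t ≤ (s - t) * 0 + t * M ≤ s * M`.  `x` is the nearest point
(`flat_nearest`). -/
theorem exit_data [ProperSpace X] (hX : IsCAT0 X) {i : Euc k → X} (hi : Isometry i) {u : Euc k}
    (hu : ‖u‖ = 1) (hnot : ¬ InteriorDirection i u) {M : ℝ} (hM : 0 < M) (n : ℕ) :
    ∃ (r : ℝ → X) (s : ℝ) (x : Euc k), IsRay r ∧
      (∀ t : ℝ, 0 ≤ t → dist (r t) (i (t • u)) ≤ t / ((n : ℝ) + 1)) ∧
      M * ((n : ℝ) + 1) ≤ s ∧ dist (r s) (i x) = M ∧ infDist (r s) (Set.range i) = M ∧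
      ∀ t : ℝ, 0 ≤ t → t ≤ s → infDist (r t) (Set.range i) ≤ M := by
  have hn : (0 : ℝ) < (n : ℝ) + 1 := by positivity
  have hε : (0 : ℝ) < 1 / ((n : ℝ) + 1) := by positivity
  have hnot' : ¬ ∀ c : ℝ → X, IsRay c →
      (∃ A : ℝ, ∀ t : ℝ, 0 ≤ t → dist (c t) (i (t • u)) ≤ A + 1 / ((n : ℝ) + 1) * t) →
      ∃ w : Euc k, ‖w‖ = 1 ∧ ∃ D : ℝ, ∀ t : ℝ, 0 ≤ t → dist (c t) (i (t • w)) ≤ D :=
    fun h => hnot ⟨_, hε, h⟩
  push Not at hnot'
  obtain ⟨c, hc, ⟨A, hA⟩, hw⟩ := hnot'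
  obtain ⟨r, hr, hr0, hrc⟩ := exists_asymptotic_ray hX hc (i 0)
  have h1 : ∀ t : ℝ, 0 ≤ t → dist (r t) (i (t • u)) ≤ t / ((n : ℝ) + 1) := by
    intro t ht
    have h2 := ray_growth hX hr (flat_line0 hi hu).isRay (A := dist (i 0) (c 0) + A)
      (ε := 1 / ((n : ℝ) + 1)) (fun s hs => by
        have h3 := dist_triangle (r s) (c s) (i (s • u))
        have h4 := hrc s hs
        have h5 := hA s hs
        show dist (r s) (i (s • u)) ≤ _
        linarith) ht
    have h6 : dist (r 0) (i ((0 : ℝ) • u)) = 0 := by rw [hr0, zero_smul, dist_self]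
    have h7 : dist (r t) (i (t • u)) ≤ dist (r 0) (i ((0 : ℝ) • u)) + 1 / ((n : ℝ) + 1) * t := h2
    rw [h6, zero_add, one_div_mul_eq_div] at h7
    exact h7
  have hne : (Set.range i).Nonempty := ⟨i 0, 0, rfl⟩
  have hf0 : infDist (r 0) (Set.range i) = 0 := by
    rw [hr0]
    exact infDist_zero_of_mem ⟨0, rfl⟩
  have hunb : ∃ T : ℝ, 0 ≤ T ∧ M < infDist (r T) (Set.range i) := by
    by_contra hcon
    push Not at hcon
    obtain ⟨w, hw1, hw2⟩ := ray_near_flat hX hi hr hcon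
    obtain ⟨t, ht, ht2⟩ := hw w hw1 (dist (i 0) (c 0) + dist (r 0) (i 0))
    have h3 := dist_triangle (c t) (r t) (i (t • w))
    have h4 := hrc t ht
    have h5 := hw2 t ht
    rw [dist_comm (r t) (c t)] at h4
    linarith
  obtain ⟨T, hT0, hT⟩ := hunb
  have hrcont : ContinuousOn r (Set.Icc 0 T) := by
    rw [Metric.continuousOn_iff]
    intro b hb δ hδ
    refine ⟨δ, hδ, fun a ha hab => ?_⟩
    rw [hr a b ha.1 hb.1]
    exact hab
  have hfcont : ContinuousOn (fun t => infDist (r t) (Set.range i)) (Set.Icc 0 T) :=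
    (continuous_infDist_pt (Set.range i)).comp_continuousOn hrcont
  obtain ⟨s, hs, hfs⟩ := intermediate_value_Icc hT0 hfcont
    (show M ∈ Set.Icc (infDist (r 0) (Set.range i)) (infDist (r T) (Set.range i)) from
      ⟨by rw [hf0]; exact hM.le, hT.le⟩)
  have hfs' : infDist (r s) (Set.range i) = M := hfs
  have hMs : M * ((n : ℝ) + 1) ≤ s := by
    have h2 : M ≤ s / ((n : ℝ) + 1) := by
      rw [← hfs']
      exact (infDist_le_dist_of_mem (show i (s • u) ∈ Set.range i from ⟨s • u, rfl⟩)).trans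
        (h1 s hs.1)
    exact (le_div_iff₀ hn).mp h2
  have hspos : 0 < s := lt_of_lt_of_le (mul_pos hM hn) hMs
  obtain ⟨x, hx⟩ := flat_nearest hi (r s)
  refine ⟨r, s, x, hr, h1, hMs, hx.trans hfs', hfs', fun t ht hts => ?_⟩
  have h2 := infDist_convex hX (flat_midClosed hX hi) hne (hr.isAff s) (t := t) ⟨ht, hts⟩
  rw [hf0, hfs', mul_zero, zero_add, sub_zero, sub_zero] at h2
  have h3 : s * infDist (r t) (Set.range i) ≤ s * M :=
    h2.trans (mul_le_mul_of_nonneg_right hts hM.le)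
  exact le_of_mul_le_mul_left h3 hspos

end Pool.Agent.H18TB
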