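import Pool.Agent.Lib.H18TB.D1A

/-!
# D1B: the exit data, recentred
-/

set_option autoImplicit false

namespace Pool.Agent.H18TB

open Filter Topology Metric

variable {X : Type} [MetricSpace X] {k : ℕ}

/-- The exit data, recentred at the exit time.  Proof: `L t = r (s + t)`;
`‖x - s • u‖ = dist (i x) (i (s • u)) ≤ dist (i x) (r s) + dist (r s) (i (s • u))`; for the last but one
claim use `ray_growth` for the rays `t ↦ r (s + t)` and `t ↦ i (x + t • u)` with `ε = 1 / (n + 1)`, since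
`dist (r (s + t)) (i (x + t • u)) ≤ dist (r (s + t)) (i ((s + t) • u)) + ‖s • u - x‖
≤ (s + t) / (n + 1) + M + s / (n + 1)`. -/
theorem exit_data' [ProperSpace X] (hX : IsCAT0 X) {i : Euc k → X} (hi : Isometry i) {u : Euc k}
    (hu : ‖u‖ = 1) (hnot : ¬ InteriorDirection i u) {M : ℝ} (hM : 0 < M) (n : ℕ) :
    ∃ (L : ℝ → X) (s : ℝ) (x : Euc k), M * ((n : ℝ) + 1) ≤ s ∧
      (∀ a b : ℝ, -s ≤ a → -s ≤ b → dist (L a) (L b) = |a - b|) ∧
      dist (L 0) (i x) = M ∧ (∀ y : Euc k, M ≤ dist (L 0) (i y)) ∧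
      (∀ t : ℝ, -s ≤ t → t ≤ 0 → infDist (L t) (Set.range i) ≤ M) ∧
      (∀ t : ℝ, 0 ≤ t → dist (L t) (i (x + t • u)) ≤ M + t / ((n : ℝ) + 1)) ∧
      ‖x - s • u‖ ≤ M + s / ((n : ℝ) + 1) := by
  obtain ⟨r, s, x, hr, h1, h2, h3, h4, h5⟩ := exit_data hX hi hu hnot hM n
  have hn : (0 : ℝ) < (n : ℝ) + 1 := by positivity
  have hs : 0 ≤ s := le_trans (by positivity) h2
  have h7 : ‖x - s • u‖ ≤ M + s / ((n : ℝ) + 1) := by
    rw [← dist_eq_norm, ← hi.dist_eq x (s • u), ← h3]
    have a1 := dist_triangle (i x) (r s) (i (s • u))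
    have a2 := h1 s hs
    rw [dist_comm (i x) (r s)] at a1
    linarith
  refine ⟨fun t => r (s + t), s, x, h2, ?_, ?_, ?_, ?_, ?_, h7⟩
  · intro a b ha hb
    have := hr (s + a) (s + b) (by linarith) (by linarith)
    show dist (r (s + a)) (r (s + b)) = _
    rw [this, show s + a - (s + b) = a - b by ring]
  · show dist (r (s + 0)) (i x) = M
    rw [add_zero]; exact h3
  · intro y
    show M ≤ dist (r (s + 0)) (i y)
    rw [add_zero, ← h4]
    exact infDist_le_dist_of_mem (Set.mem_range_self y)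
  · intro t ht1 ht2
    exact h5 (s + t) (by linarith) (by linarith)
  · intro t ht
    have hc : IsRay (fun t => r (s + t)) := hr.shift hs
    have hc' : IsRay (fun t : ℝ => i (x + t • u)) := (flat_line hi hu x).isRay
    have hb : ∀ t : ℝ, 0 ≤ t → dist ((fun t => r (s + t)) t) ((fun t : ℝ => i (x + t • u)) t) ≤
        (M + 2 * (s / ((n : ℝ) + 1))) + 1 / ((n : ℝ) + 1) * t := by
      intro t ht
      show dist (r (s + t)) (i (x + t • u)) ≤ _
      have a1 := dist_triangle (r (s + t)) (i ((s + t) • u)) (i (x + t • u))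
      have a2 := h1 (s + t) (by linarith)
      have a3 : dist (i ((s + t) • u)) (i (x + t • u)) ≤ M + s / ((n : ℝ) + 1) := by
        rw [hi.dist_eq, dist_eq_norm, show (s + t) • u - (x + t • u) = -(x - s • u) by
          rw [add_smul]; abel, norm_neg]
        exact h7
      have a4 : (s + t) / ((n : ℝ) + 1) = s / ((n : ℝ) + 1) + 1 / ((n : ℝ) + 1) * t := by
        ring
      linarith
    have h8 := ray_growth hX hc hc' hb ht
    have h9 : dist ((fun t => r (s + t)) 0) ((fun t : ℝ => i (x + t • u)) 0) = M := by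
      show dist (r (s + 0)) (i (x + (0 : ℝ) • u)) = M
      rw [add_zero, zero_smul, add_zero]; exact h3
    rw [h9] at h8
    show dist (r (s + t)) (i (x + t • u)) ≤ _
    have h10 : t / ((n : ℝ) + 1) = 1 / ((n : ℝ) + 1) * t := by ring
    rw [h10]
    exact h8

end Pool.Agent.H18TB
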