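import Pool.Agent.Lib.H18TB.Defs

/-!
# D1C: the direction of the exit points
-/

set_option autoImplicit false

namespace Pool.Agent.H18TB

open Filter Topology Metric

variable {k : ℕ}

/-- Proof: `y n = (s n)⁻¹ • x n` satisfies `‖y n - u‖ ≤ M / s n + 1 / (n + 1) ≤ 2 / (n + 1)`, so
`y n → u`, `‖y n‖ → 1`; `‖x n‖ = s n * ‖y n‖ → ∞` and `‖x n‖⁻¹ • x n = ‖y n‖⁻¹ • y n → u`. -/
theorem exit_direction {u : Euc k} (hu : ‖u‖ = 1) {M : ℝ} (hM : 0 < M) {s : ℕ → ℝ}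
    {x : ℕ → Euc k} (hs : ∀ n : ℕ, M * ((n : ℝ) + 1) ≤ s n)
    (hx : ∀ n : ℕ, ‖x n - s n • u‖ ≤ M + s n / ((n : ℝ) + 1)) :
    Tendsto (fun n => ‖x n‖) atTop atTop ∧ Tendsto (fun n => ‖x n‖⁻¹ • x n) atTop (𝓝 u) := by
  have hspos : ∀ n : ℕ, 0 < s n := fun n => lt_of_lt_of_le (by positivity) (hs n)
  have hsx : ∀ n : ℕ, x n = s n • ((s n)⁻¹ • x n) := fun n => by
    rw [smul_smul, mul_inv_cancel₀ (hspos n).ne', one_smul]
  have hb : ∀ n : ℕ, ‖(s n)⁻¹ • x n - u‖ ≤ 2 * (1 / ((n : ℝ) + 1)) := fun n => by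
    have h1 : (s n)⁻¹ • x n - u = (s n)⁻¹ • (x n - s n • u) := by
      rw [smul_sub, smul_smul, inv_mul_cancel₀ (hspos n).ne', one_smul]
    have hn : (0 : ℝ) < (n : ℝ) + 1 := by positivity
    have h2 : M / s n ≤ 1 / ((n : ℝ) + 1) := by
      rw [div_le_div_iff₀ (hspos n) hn, one_mul]
      exact hs n
    calc ‖(s n)⁻¹ • x n - u‖ = (s n)⁻¹ * ‖x n - s n • u‖ := by
          rw [h1, norm_smul, norm_inv, Real.norm_of_nonneg (hspos n).le]
      _ ≤ (s n)⁻¹ * (M + s n / ((n : ℝ) + 1)) :=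
          mul_le_mul_of_nonneg_left (hx n) (inv_nonneg.mpr (hspos n).le)
      _ = M / s n + 1 / ((n : ℝ) + 1) := by
          have := (hspos n).ne'
          field_simp
      _ ≤ 2 * (1 / ((n : ℝ) + 1)) := by linarith
  have hy : Tendsto (fun n => (s n)⁻¹ • x n) atTop (𝓝 u) := by
    rw [tendsto_iff_norm_sub_tendsto_zero]
    have h0 : Tendsto (fun n : ℕ => 2 * (1 / ((n : ℝ) + 1))) atTop (𝓝 0) := by
      simpa using (tendsto_one_div_add_atTop_nhds_zero_nat (𝕜 := ℝ)).const_mul 2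
    exact squeeze_zero (fun n => norm_nonneg _) hb h0
  have hny : Tendsto (fun n => ‖(s n)⁻¹ • x n‖) atTop (𝓝 1) := by
    have := hy.norm
    rwa [hu] at this
  have hsinf : Tendsto s atTop atTop := by
    refine tendsto_atTop_mono hs (Tendsto.const_mul_atTop hM ?_)
    exact tendsto_atTop_add_const_right _ _ tendsto_natCast_atTop_atTop
  have hnx : ∀ n : ℕ, ‖x n‖ = s n * ‖(s n)⁻¹ • x n‖ := fun n => by
    conv_lhs => rw [hsx n]
    rw [norm_smul, Real.norm_of_nonneg (hspos n).le]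
  refine ⟨?_, ?_⟩
  · simp_rw [hnx]
    exact hsinf.atTop_mul_pos one_pos hny
  · have h3 : ∀ n : ℕ, ‖x n‖⁻¹ • x n = ‖(s n)⁻¹ • x n‖⁻¹ • ((s n)⁻¹ • x n) := fun n => by
      rw [hnx n, mul_inv, smul_smul, mul_comm (s n)⁻¹]
    simp_rw [h3]
    have h4 : Tendsto (fun n => ‖(s n)⁻¹ • x n‖⁻¹) atTop (𝓝 1) := by
      have := hny.inv₀ one_ne_zero
      rwa [inv_one] at this
    have h5 := h4.smul hy
    rwa [one_smul] at h5

end Pool.Agent.H18TB
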