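import Pool.Agent.Lib.H18TB.D1B
import Pool.Agent.Lib.H18TB.D1C

/-!
# D2: the limit of the exit data
-/

set_option autoImplicit false

namespace Pool.Agent.H18TB

open Filter Topology Metric

variable {X : Type} [MetricSpace X] {k : ℕ}

/-- Proof.  Take `L n`, `s n`, `x n` from `exit_data'` for every `n`, and `g n ∈ G` with
`g n • i (x n) ∈ K`.  The maps `y ↦ g n • i (y + x n)` are isometries with value at `0` in `K`; by
`arzela` (`T = Euc k`) a subsequence converges pointwise to some `j`.  The maps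
`t ↦ g n • L n t` are pointwise bounded (`dist (L n 0) (i (x n)) = M`) and, for each pair of
times, eventually `1`-Lipschitz since `s n → ∞`; by `arzela` (`T = ℝ`) a further subsequence
converges pointwise to some `L`, and `dist (L a) (L b) = |a - b|`.  `j` is a limit flat by
`exit_direction` (composed with the subsequence), and an isometry as a limit of isometries.
Pass to the limit in `M ≤ dist (g n • L n 0) (g n • i (y + x n))` and in
`dist (g n • L n t) (g n • i (t • u + x n)) ≤ M + t / (n + 1)`.  For `t ≤ 0`, for large `n` choose by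
`flat_nearest` points `y n` with `dist (g n • L n t) (g n • i (y n + x n)) ≤ M`; then
`‖y n‖ ≤ 2 * M + |t|` (compare with `g n • i (x n)` through `g n • L n 0`), so a subsequence of
`y n` converges to some `y`, and `dist (L t) (j y) ≤ M`. -/
theorem exit_limit [ProperSpace X] (hX : IsCAT0 X) (G : Type) [Group G] [MulAction G X]
    (hiso : ∀ (g : G) (x y : X), dist (g • x) (g • y) = dist x y)
    (hco : ∃ K : Set X, IsCompact K ∧ ∀ x : X, ∃ g : G, g • x ∈ K)
    {i : Euc k → X} (hi : Isometry i) {u : Euc k}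
    (hu : ‖u‖ = 1) (hnot : ¬ InteriorDirection i u) {M : ℝ} (hM : 0 < M) :
    ∃ (j : Euc k → X) (L : ℝ → X), IsLimitFlat G i u j ∧ Isometry j ∧ IsLine L ∧
      (∀ x : Euc k, M ≤ dist (L 0) (j x)) ∧
      (∀ t : ℝ, 0 ≤ t → dist (L t) (j (t • u)) ≤ M) ∧
      (∀ t : ℝ, t ≤ 0 → infDist (L t) (Set.range j) ≤ M) := by
  classical
  choose L s x hs hL h0 hfar hneg hpos hx using fun n => exit_data' hX hi hu hnot hM n
  obtain ⟨K, hK, hKc⟩ := hco
  choose g hg using fun n => hKc (i (x n))
  obtain ⟨R, hR⟩ := hK.isBounded.subset_closedBall (i 0)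
  have hgR : ∀ n, dist (g n • i (x n)) (i 0) ≤ R := fun n => by
    have := hR (hg n)
    rwa [mem_closedBall] at this
  have hs_top : Tendsto s atTop atTop := by
    have h1 : Tendsto (fun n : ℕ => M * ((n : ℝ) + 1)) atTop atTop :=
      Tendsto.const_mul_atTop hM (tendsto_atTop_add_const_right _ _ tendsto_natCast_atTop_atTop)
    exact tendsto_atTop_mono hs h1
  -- first extraction
  obtain ⟨φ1, hφ1, j, hj⟩ := arzela (T := Euc k) (X := X) (fun n y => g n • i (y + x n)) (i 0)
    (by
      intro y
      refine ⟨‖y‖ + R, Eventually.of_forall fun n => ?_⟩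
      have h1 : dist (g n • i (y + x n)) (g n • i (x n)) = ‖y‖ := by
        rw [hiso, hi.dist_eq, dist_eq_norm]; simp
      calc dist (g n • i (y + x n)) (i 0)
          ≤ dist (g n • i (y + x n)) (g n • i (x n)) + dist (g n • i (x n)) (i 0) :=
            dist_triangle _ _ _
        _ ≤ ‖y‖ + R := by rw [h1]; linarith [hgR n])
    (by
      intro a b
      refine Eventually.of_forall fun n => ?_
      rw [hiso, hi.dist_eq]
      simp)
  have hs1 : Tendsto (fun n => s (φ1 n)) atTop atTop := hs_top.comp hφ1.tendsto_atTop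
  -- second extraction
  obtain ⟨φ2, hφ2, Li, hLi⟩ := arzela (T := ℝ) (X := X) (fun n t => g (φ1 n) • L (φ1 n) t) (i 0)
    (by
      intro t
      refine ⟨|t| + M + R, ?_⟩
      filter_upwards [hs1.eventually_ge_atTop (|t|)] with n hn
      have hst : -s (φ1 n) ≤ t := by linarith [neg_abs_le t]
      have hs0 : -s (φ1 n) ≤ 0 := by linarith [abs_nonneg t]
      have h1 : dist (g (φ1 n) • L (φ1 n) t) (g (φ1 n) • L (φ1 n) 0) = |t| := by
        rw [hiso, hL _ _ _ hst hs0, sub_zero]
      have h2 : dist (g (φ1 n) • L (φ1 n) 0) (g (φ1 n) • i (x (φ1 n))) = M := by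
        rw [hiso, h0]
      have h3 := dist_triangle4 (g (φ1 n) • L (φ1 n) t) (g (φ1 n) • L (φ1 n) 0)
        (g (φ1 n) • i (x (φ1 n))) (i 0)
      rw [h1, h2] at h3
      linarith [hgR (φ1 n)])
    (by
      intro a b
      filter_upwards [hs1.eventually_ge_atTop (|a|), hs1.eventually_ge_atTop (|b|)] with n hn hn'
      have ha : -s (φ1 n) ≤ a := by linarith [neg_abs_le a]
      have hb : -s (φ1 n) ≤ b := by linarith [neg_abs_le b]
      rw [hiso, hL _ _ _ ha hb, Real.dist_eq])
  -- the composed subsequence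
  set ψ : ℕ → ℕ := fun n => φ1 (φ2 n) with hψdef
  have hψ : StrictMono ψ := hφ1.comp hφ2
  have hψt : Tendsto ψ atTop atTop := hψ.tendsto_atTop
  have hj' : ∀ y, Tendsto (fun n => g (ψ n) • i (y + x (ψ n))) atTop (𝓝 (j y)) := fun y =>
    (hj y).comp hφ2.tendsto_atTop
  have hLi' : ∀ t, Tendsto (fun n => g (ψ n) • L (ψ n) t) atTop (𝓝 (Li t)) := fun t => hLi t
  have hsψ : Tendsto (fun n => s (ψ n)) atTop atTop := hs_top.comp hψt
  have hdir := exit_direction hu hM hs hx
  refine ⟨j, Li, ⟨fun n => g (ψ n), fun n => x (ψ n), hdir.1.comp hψt, hdir.2.comp hψt, hj'⟩,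
    ?_, ?_, ?_, ?_, ?_⟩
  · refine Isometry.of_dist_eq fun a b => ?_
    have h1 := (hj' a).dist (hj' b)
    have h2 : Tendsto (fun n => dist (g (ψ n) • i (a + x (ψ n))) (g (ψ n) • i (b + x (ψ n)))) atTop
        (𝓝 (dist a b)) := by
      have : (fun n => dist (g (ψ n) • i (a + x (ψ n))) (g (ψ n) • i (b + x (ψ n)))) =
          fun _ => dist a b := by
        funext n
        rw [hiso, hi.dist_eq]; simp
      rw [this]; exact tendsto_const_nhds
    exact tendsto_nhds_unique h1 h2
  · intro a b
    have h1 := (hLi' a).dist (hLi' b)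
    have h2 : Tendsto (fun n => dist (g (ψ n) • L (ψ n) a) (g (ψ n) • L (ψ n) b)) atTop
        (𝓝 (|a - b|)) := by
      refine tendsto_const_nhds.congr' ?_
      filter_upwards [hsψ.eventually_ge_atTop (|a|), hsψ.eventually_ge_atTop (|b|)] with n hn hn'
      have ha : -s (ψ n) ≤ a := by linarith [neg_abs_le a]
      have hb : -s (ψ n) ≤ b := by linarith [neg_abs_le b]
      rw [hiso, hL _ _ _ ha hb]
    exact tendsto_nhds_unique h1 h2
  · intro y
    refine ge_of_tendsto ((hLi' 0).dist (hj' y)) (Eventually.of_forall fun n => ?_)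
    rw [hiso]
    exact hfar _ _
  · intro t ht
    have h1 := (hLi' t).dist (hj' (t • u))
    have h2 : Tendsto (fun n => M + t / (((ψ n : ℕ) : ℝ) + 1)) atTop (𝓝 (M + 0)) := by
      refine tendsto_const_nhds.add ?_
      refine Tendsto.div_atTop tendsto_const_nhds ?_
      exact tendsto_atTop_add_const_right _ _ (tendsto_natCast_atTop_atTop.comp hψt)
    have h3 := le_of_tendsto_of_tendsto h1 h2 (Eventually.of_forall fun n => by
      show dist (g (ψ n) • L (ψ n) t) (g (ψ n) • i (t • u + x (ψ n))) ≤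
        M + t / (((ψ n : ℕ) : ℝ) + 1)
      rw [hiso, add_comm (t • u)]
      exact hpos _ _ ht)
    simpa using h3
  · intro t ht
    choose y hy using fun n => flat_nearest hi (L (ψ n) t)
    have hev : ∀ᶠ n in atTop, dist (L (ψ n) t) (i (y n)) ≤ M ∧
        y n - x (ψ n) ∈ closedBall (0 : Euc k) (2 * M + |t|) := by
      filter_upwards [hsψ.eventually_ge_atTop (|t|)] with n hn
      have hst : -s (ψ n) ≤ t := by linarith [neg_abs_le t]
      have hs0 : -s (ψ n) ≤ 0 := by linarith [abs_nonneg t]
      have h1 : dist (L (ψ n) t) (i (y n)) ≤ M := by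
        rw [hy n]; exact hneg _ _ hst ht
      refine ⟨h1, ?_⟩
      rw [mem_closedBall, dist_zero_right, ← dist_eq_norm, ← hi.dist_eq]
      have h2 : dist (L (ψ n) t) (L (ψ n) 0) = |t| := by
        rw [hL _ _ _ hst hs0, sub_zero]
      have h3 := dist_triangle4 (i (y n)) (L (ψ n) t) (L (ψ n) 0) (i (x (ψ n)))
      have h4 := dist_comm (i (y n)) (L (ψ n) t)
      rw [h0, h2] at h3
      linarith
    obtain ⟨z, -, θ, hθ, hz⟩ := (isCompact_closedBall (0 : Euc k) (2 * M + |t|)).tendsto_subseq'
      (hev.mono fun n hn => hn.2).frequently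
    have hzle : dist (Li t) (j z) ≤ M := by
      have h1 := ((hLi' t).dist (hj' z)).comp hθ.tendsto_atTop
      have h2 : Tendsto (fun n => M + dist (y (θ n) - x (ψ (θ n))) z) atTop (𝓝 (M + 0)) := by
        refine tendsto_const_nhds.add ?_
        have := hz.dist (tendsto_const_nhds (x := z))
        simpa using this
      have h3 := le_of_tendsto_of_tendsto h1 h2 (by
        filter_upwards [hθ.tendsto_atTop.eventually hev] with n hn
        show dist (g (ψ (θ n)) • L (ψ (θ n)) t) (g (ψ (θ n)) • i (z + x (ψ (θ n)))) ≤ _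
        rw [hiso]
        have h4 := dist_triangle (L (ψ (θ n)) t) (i (y (θ n))) (i (z + x (ψ (θ n))))
        have h5 : dist (i (y (θ n))) (i (z + x (ψ (θ n)))) = dist (y (θ n) - x (ψ (θ n))) z := by
          rw [hi.dist_eq, dist_eq_norm, dist_eq_norm]
          congr 1
          abel
        rw [h5] at h4
        linarith [hn.1])
      simpa using h3
    exact le_trans (infDist_le_dist_of_mem ⟨z, rfl⟩) hzle

end Pool.Agent.H18TB
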