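import Pool.Agent.Lib.H18TB.D2

/-!
# D3: far parallel lines
-/

set_option autoImplicit false

namespace Pool.Agent.H18TB

open Filter Topology Metric

variable {X : Type} [MetricSpace X] {k : ℕ}

/-- `L` is a line parallel to `t ↦ j (t • u)` at constant distance `M`, and `M` is the distance
of `L 0` from the flat `j`. -/
def FarLine (j : Euc k → X) (u : Euc k) (M : ℝ) (L : ℝ → X) : Prop :=
  IsLine L ∧ (∀ t : ℝ, dist (L t) (j (t • u)) = M) ∧ ∀ x : Euc k, M ≤ dist (L 0) (j x)

/-- Proof.  The ray `t ↦ L (-t)` stays within `M` of the flat, so by `ray_near_flat` there is a unit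
vector `w` with `dist (L (-t)) (j (t • w)) ≤ D` for `t ≥ 0`.  Then for `t ≥ 0`,
`2 * t = dist (L t) (L (-t)) ≤ M + ‖t • u - t • w‖ + D = M + D + t * ‖u - w‖`, hence
`2 ≤ ‖u - w‖`, and `‖u - w‖ ^ 2 + ‖u + w‖ ^ 2 = 4` gives `w = -u`. -/
theorem line_parallel [ProperSpace X] (hX : IsCAT0 X) {j : Euc k → X} (hj : Isometry j)
    {u : Euc k} (hu : ‖u‖ = 1) {L : ℝ → X} (hL : IsLine L) {M : ℝ}
    (hf : ∀ t : ℝ, 0 ≤ t → dist (L t) (j (t • u)) ≤ M)
    (hb : ∀ t : ℝ, t ≤ 0 → infDist (L t) (Set.range j) ≤ M) :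
    ∃ D : ℝ, ∀ t : ℝ, dist (L t) (j (t • u)) ≤ D := by
  obtain ⟨w, hw, hD⟩ := ray_near_flat hX hj (hL.neg.isRay) (M := M)
    (fun t ht => hb (-t) (by linarith))
  set D : ℝ := dist ((fun t => L (-t)) 0) (j 0) with hDdef
  have key : ∀ t : ℝ, 0 ≤ t → (2 - ‖u - w‖) * t ≤ M + D := by
    intro t ht
    have h1 : dist (L t) (L (-t)) = 2 * t := by
      rw [hL t (-t), sub_neg_eq_add, abs_of_nonneg (by linarith)]
      ring
    have h2 : dist (j (t • u)) (j (t • w)) = t * ‖u - w‖ := by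
      rw [hj.dist_eq, dist_eq_norm, ← smul_sub, norm_smul, Real.norm_of_nonneg ht]
    have h3 := dist_triangle4 (L t) (j (t • u)) (j (t • w)) (L (-t))
    have h4 := hf t ht
    have h5 := hD t ht
    have h6 : dist (j (t • w)) (L (-t)) ≤ D := by
      rw [dist_comm]
      exact h5
    rw [h1, h2] at h3
    nlinarith
  have h2 : 2 ≤ ‖u - w‖ := by
    by_contra hlt
    rw [not_le] at hlt
    have hpos : 0 < 2 - ‖u - w‖ := by linarith
    have hMD : 0 ≤ M + D := by
      have := key 0 le_rfl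
      rw [mul_zero] at this
      exact this
    have h7 := key ((M + D + 1) / (2 - ‖u - w‖)) (div_nonneg (by linarith) hpos.le)
    rw [mul_div_cancel₀ _ hpos.ne'] at h7
    linarith
  have hwu : w = -u := by
    have h8 := parallelogram_law_with_norm ℝ u w
    rw [hu, hw] at h8
    have h9 : ‖u + w‖ * ‖u + w‖ ≤ 0 := by nlinarith
    have h10 : ‖u + w‖ = 0 := by
      have h11 := mul_self_nonneg ‖u + w‖
      exact mul_self_eq_zero.mp (le_antisymm h9 h11)
    rw [norm_eq_zero] at h10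
    exact (neg_eq_of_add_eq_zero_right h10).symm
  refine ⟨max M D, fun t => ?_⟩
  rcases le_total 0 t with ht | ht
  · exact (hf t ht).trans (le_max_left _ _)
  · have h12 := hD (-t) (by linarith)
    rw [hwu] at h12
    simp only [neg_neg, smul_neg, neg_smul] at h12
    exact h12.trans (le_max_right _ _)

/-- Proof: `exit_limit`, `line_parallel`, `line_dist_const`: the constant distance is
`dist (L 0) (j 0)`, which is at least and at most `M`. -/
theorem exists_farLine [ProperSpace X] (hX : IsCAT0 X) (G : Type) [Group G] [MulAction G X]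
    (hiso : ∀ (g : G) (x y : X), dist (g • x) (g • y) = dist x y)
    (hco : ∃ K : Set X, IsCompact K ∧ ∀ x : X, ∃ g : G, g • x ∈ K)
    {i : Euc k → X} (hi : Isometry i) {u : Euc k}
    (hu : ‖u‖ = 1) (hnot : ¬ InteriorDirection i u) {M : ℝ} (hM : 0 < M) :
    ∃ (j : Euc k → X) (L : ℝ → X), IsLimitFlat G i u j ∧ Isometry j ∧ FarLine j u M L := by
  obtain ⟨j, L, hlim, hj, hL, h1, h2, h3⟩ := exit_limit hX G hiso hco hi hu hnot hM
  obtain ⟨D, hD⟩ := line_parallel hX hj hu hL h2 h3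
  refine ⟨j, L, hlim, hj, hL, fun t => ?_, h1⟩
  have h4 := line_dist_const hX hL (flat_line0 hj hu) hD t 0
  have h5 := h2 0 le_rfl
  have h6 := h1 ((0 : ℝ) • u)
  have h7 : dist (L t) (j (t • u)) = dist (L 0) (j ((0 : ℝ) • u)) := h4
  rw [h7]
  exact le_antisymm h5 h6

end Pool.Agent.H18TB
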