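import Mathlib

/-!
# Definitions for the hand-in MP_fbf460_gt.RegularDirections

`X` is a metric space satisfying the CAT(0) (Bruhat-Tits) inequality in the form used by the frozen
statement S14281.  A flat is an isometric embedding `i : Euc k → X`, a direction is a unit vector
`u : Euc k`.
-/

set_option autoImplicit false

namespace Pool.Agent.H18TB

open Filter Topology

/-- Euclidean space of dimension `k`. -/
abbrev Euc (k : ℕ) : Type := EuclideanSpace ℝ (Fin k)

/-- The CAT(0) inequality, in exactly the form used in the frozen statement S14281. -/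
def IsCAT0 (X : Type) [MetricSpace X] : Prop :=
  ∀ x y : X, ∃ m : X, ∀ z : X,
    dist z m ^ 2 ≤ dist z x ^ 2 / 2 + dist z y ^ 2 / 2 - dist x y ^ 2 / 4

section

variable {X : Type} [MetricSpace X]

/-- The restriction of `c` to `[0, ∞)` is a geodesic ray. -/
def IsRay (c : ℝ → X) : Prop :=
  ∀ s t : ℝ, 0 ≤ s → 0 ≤ t → dist (c s) (c t) = |s - t|

/-- `L` is a geodesic line. -/
def IsLine (L : ℝ → X) : Prop :=
  ∀ s t : ℝ, dist (L s) (L t) = |s - t|

/-- The parallel set of the line `t ↦ j (t • u)` of the flat `j` lies in a bounded neighbourhood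
of the flat `j`: there is a `C` such that every line at bounded distance from `t ↦ j (t • u)` passes,
at time `0`, within `C` of the image of `j`.  (Reparametrising a line `L` by a translation shows that
then every point of every such line is within `C` of the image of `j`.) -/
def ParallelSetNear {k : ℕ} (j : Euc k → X) (u : Euc k) : Prop :=
  ∃ C : ℝ, ∀ L : ℝ → X, IsLine L →
    (∃ D : ℝ, ∀ t : ℝ, dist (L t) (j (t • u)) ≤ D) → ∃ x : Euc k, dist (L 0) (j x) ≤ C

/-- The point at infinity of the ray `t ↦ i (t • u)` is an interior point of the boundary of the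
flat `i` in the Tits boundary: for some `ε > 0`, every ray `c` whose distance from the ray
`t ↦ i (t • u)` at time `t` is at most `A + ε * t` for some constant `A` (that is, whose point at
infinity has chordal Tits distance at most `ε` from the given one) is asymptotic to the ray
`t ↦ i (t • w)` of the flat for some unit vector `w`. -/
def InteriorDirection {k : ℕ} (i : Euc k → X) (u : Euc k) : Prop :=
  ∃ ε : ℝ, 0 < ε ∧ ∀ c : ℝ → X, IsRay c →
    (∃ A : ℝ, ∀ t : ℝ, 0 ≤ t → dist (c t) (i (t • u)) ≤ A + ε * t) →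
    ∃ w : Euc k, ‖w‖ = 1 ∧ ∃ D : ℝ, ∀ t : ℝ, 0 ≤ t → dist (c t) (i (t • w)) ≤ D

variable (G : Type) [Group G] [MulAction G X]

/-- `j` is a limit flat of the flat `i` in the direction `u`: there are group elements `g n` and
points `v n` of the flat, going to infinity in the direction `u`, such that the flats
`x ↦ g n • i (x + v n)` converge pointwise to `j`. -/
def IsLimitFlat {k : ℕ} (i : Euc k → X) (u : Euc k) (j : Euc k → X) : Prop :=
  ∃ (g : ℕ → G) (v : ℕ → Euc k),
    Tendsto (fun n => ‖v n‖) atTop atTop ∧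
    Tendsto (fun n => ‖v n‖⁻¹ • v n) atTop (𝓝 u) ∧
    ∀ x : Euc k, Tendsto (fun n => g n • i (x + v n)) atTop (𝓝 (j x))

/-- The direction `u` of the flat `i` is regular: in every limit flat `j` of `i` in the direction
`u`, the parallel set of the line `t ↦ j (t • u)` lies in a bounded neighbourhood of `j`
(the bound may depend on `j`). -/
def RegularDirection {k : ℕ} (i : Euc k → X) (u : Euc k) : Prop :=
  ∀ j : Euc k → X, IsLimitFlat G i u j → ParallelSetNear j u

/-- Elements of `G` act on the flat `i` as translations, by a set of vectors which comes within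
`R` of every vector (by Bieberbach's theorem this holds for every periodic flat of a proper
action). -/
def TranslationCocompact {k : ℕ} (i : Euc k → X) : Prop :=
  ∃ R : ℝ, ∀ v : Euc k, ∃ (g : G) (w : Euc k), (∀ x : Euc k, g • i x = i (x + w)) ∧ ‖w - v‖ ≤ R

end

/-- The conclusion of the frozen statement S14281 for the space `X` (its text from `∀ x₀` on):
for every base point, the Tits boundary, as the set of rays from the base point, has a nonempty open
subset in which every sequence has a subsequence converging in the Tits boundary. -/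
def HasRelCompactOpen (X : Type) [MetricSpace X] : Prop :=
    ∀ x₀ : X, ∃ U : Set (ℝ → X), U.Nonempty ∧
      (∀ c ∈ U, c 0 = x₀ ∧
        ∀ s t : ℝ, 0 ≤ s → 0 ≤ t → dist (c s) (c t) = |s - t|) ∧
      (∀ c ∈ U, ∃ ε : ℝ, ε > 0 ∧ ∀ c' : ℝ → X,
        (c' 0 = x₀ ∧ ∀ s t : ℝ, 0 ≤ s → 0 ≤ t → dist (c' s) (c' t) = |s - t|) →
        (∀ t : ℝ, t > 0 → dist (c t) (c' t) ≤ ε * t) → c' ∈ U) ∧
      (∀ u : ℕ → ℝ → X, (∀ n, u n ∈ U) →
        ∃ c : ℝ → X,
          (c 0 = x₀ ∧ ∀ s t : ℝ, 0 ≤ s → 0 ≤ t → dist (c s) (c t) = |s - t|) ∧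
          ∃ φ : ℕ → ℕ, StrictMono φ ∧
            ∀ ε : ℝ, ε > 0 → ∃ N : ℕ, ∀ n : ℕ, n ≥ N →
              ∀ t : ℝ, t > 0 → dist (u (φ n) t) (c t) ≤ ε * t)

/-! ### Auxiliary notions used only in the proof -/

section

variable {X : Type} [MetricSpace X]

/-- `m` is a midpoint of `x` and `y`. -/
def IsMid (x y m : X) : Prop := dist x m = dist x y / 2 ∧ dist y m = dist x y / 2

/-- `S` is closed under taking midpoints. -/
def MidClosed (S : Set X) : Prop := ∀ a ∈ S, ∀ b ∈ S, ∀ m : X, IsMid a b m → m ∈ S

/-- `γ` is an affinely parametrised geodesic of speed `α` on `[a, b]`. -/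
def IsAff (γ : ℝ → X) (a b α : ℝ) : Prop :=
  ∀ s ∈ Set.Icc a b, ∀ t ∈ Set.Icc a b, dist (γ s) (γ t) = α * |s - t|

end

end Pool.Agent.H18TB
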