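import Pool.Agent.Lib.H18TB.FL
import Pool.Agent.Lib.H18TB.AR

/-!
# E1: an interior direction gives a relatively compact open subset of the Tits boundary
-/

set_option autoImplicit false

namespace Pool.Agent.H18TB

open Filter Topology Metric

variable {X : Type} [MetricSpace X] {k : ℕ}

/-- Proof.  Let `ε` be the constant of `InteriorDirection`, `x₀ : X`, `cu` the ray from `x₀` asymptotic to
`t ↦ i (t • u)` (`exists_asymptotic_ray`, `flat_line0`), `U` the set of rays `c` from `x₀` for which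
there is an `ε' < ε` with `dist (c t) (cu t) ≤ ε' * t` for all `t > 0`.  `cu ∈ U`.  If `c ∈ U` with `ε'`, every
ray `c'` from `x₀` with `dist (c t) (c' t) ≤ (ε - ε') / 2 * t` is in `U`.  Every `c ∈ U` satisfies
`dist (c t) (i (t • u)) ≤ A + ε * t` with `A = dist x₀ (i 0)`, so it is asymptotic to
`t ↦ i (t • w)`, `‖w‖ = 1`.  For a sequence `c n ∈ U` with vectors `w n`, a subsequence of `w n` converges to
some unit vector `w` (compactness of the unit sphere); let `c` be the ray from `x₀` asymptotic to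
`t ↦ i (t • w)`.  Then `dist (c n t) (c t) ≤ B n + ‖w n - w‖ * t` for some constant `B n`, and both start
at `x₀`, so `dist (c n t) (c t) ≤ ‖w n - w‖ * t` by `ray_growth`. -/
theorem hasRelCompactOpen_of_interior [ProperSpace X] (hX : IsCAT0 X) {i : Euc k → X}
    (hi : Isometry i) {u : Euc k} (hu : ‖u‖ = 1) (hint : InteriorDirection i u) :
    HasRelCompactOpen X := by
  intro x₀
  obtain ⟨ε, hε, hint⟩ := hint
  obtain ⟨cu, hcu, hcu0, hcu1⟩ := exists_asymptotic_ray hX (flat_line0 hi hu).isRay x₀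
  refine ⟨{c | c 0 = x₀ ∧ IsRay c ∧ ∃ ε' : ℝ, ε' < ε ∧ ∀ t : ℝ, 0 < t →
    dist (c t) (cu t) ≤ ε' * t}, ?_, ?_, ?_, ?_⟩
  · refine ⟨cu, hcu0, hcu, 0, hε, fun t _ => ?_⟩
    rw [dist_self, zero_mul]
  · intro c hc
    exact ⟨hc.1, hc.2.1⟩
  · rintro c ⟨hc0, hc, ε', hε', hc1⟩
    refine ⟨(ε - ε') / 2, by linarith, ?_⟩
    rintro c' ⟨hc'0, hc'⟩ h
    refine ⟨hc'0, hc', ε' + (ε - ε') / 2, by linarith, fun t ht => ?_⟩
    have a1 := dist_triangle (c' t) (c t) (cu t)
    have a2 := h t ht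
    have a3 := hc1 t ht
    rw [dist_comm (c' t) (c t)] at a1
    calc dist (c' t) (cu t) ≤ (ε - ε') / 2 * t + ε' * t := by linarith
      _ = (ε' + (ε - ε') / 2) * t := by ring
  · intro v hv
    have hw : ∀ n, ∃ w : Euc k, ‖w‖ = 1 ∧ ∃ D : ℝ, ∀ t : ℝ, 0 ≤ t →
        dist (v n t) (i (t • w)) ≤ D := by
      intro n
      obtain ⟨h0, hr, ε', hε', h1⟩ := hv n
      refine hint (v n) hr ⟨dist x₀ ((fun t : ℝ => i (t • u)) 0), fun t ht => ?_⟩
      have a1 := dist_triangle (v n t) (cu t) (i (t • u))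
      have a2 := hcu1 t ht
      have a2' : dist (cu t) (i (t • u)) ≤ dist x₀ ((fun t : ℝ => i (t • u)) 0) := a2
      have a3 : dist (v n t) (cu t) ≤ ε * t := by
        rcases ht.eq_or_lt with h2 | h2
        · rw [← h2, h0, hcu0, dist_self, mul_zero]
        · exact (h1 t h2).trans (mul_le_mul_of_nonneg_right hε'.le ht)
      linarith
    choose w hw1 D hD using hw
    have hsph : ∀ n, w n ∈ sphere (0 : Euc k) 1 := fun n => by
      rw [mem_sphere_zero_iff_norm]; exact hw1 n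
    obtain ⟨w₀, hw₀, φ, hφ, hlim⟩ := (isCompact_sphere (0 : Euc k) 1).tendsto_subseq hsph
    rw [mem_sphere_zero_iff_norm] at hw₀
    obtain ⟨c, hc, hc0, hc1⟩ := exists_asymptotic_ray hX (flat_line0 hi hw₀).isRay x₀
    refine ⟨c, ⟨hc0, hc⟩, φ, hφ, fun δ hδ => ?_⟩
    obtain ⟨N, hN⟩ := Metric.tendsto_atTop.mp hlim δ hδ
    refine ⟨N, fun n hn t ht => ?_⟩
    obtain ⟨h0, hr, -⟩ := hv (φ n)
    have hb : ∀ t : ℝ, 0 ≤ t → dist (v (φ n) t) (c t) ≤
        (D (φ n) + dist x₀ ((fun t : ℝ => i (t • w₀)) 0)) + ‖w (φ n) - w₀‖ * t := by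
      intro t ht
      have a1 := dist_triangle4 (v (φ n) t) (i (t • w (φ n))) (i (t • w₀)) (c t)
      have a2 := hD (φ n) t ht
      have a3 : dist (i (t • w (φ n))) (i (t • w₀)) = ‖w (φ n) - w₀‖ * t := by
        rw [hi.dist_eq, dist_eq_norm, ← smul_sub, norm_smul, Real.norm_of_nonneg ht, mul_comm]
      have a4 : dist (i (t • w₀)) (c t) ≤ dist x₀ ((fun t : ℝ => i (t • w₀)) 0) := by
        rw [dist_comm]; exact hc1 t ht
      linarith
    have h8 := ray_growth hX hr hc hb ht.le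
    rw [h0, hc0, dist_self, zero_add] at h8
    have h9 : ‖w (φ n) - w₀‖ < δ := by
      rw [← dist_eq_norm]; exact hN n hn
    exact h8.trans (mul_le_mul_of_nonneg_right h9.le ht.le)

end Pool.Agent.H18TB
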