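import Pool.Agent.Lib.H18TB.G2
import Pool.Agent.Lib.H18TB.AA

/-!
# F1: periodic flats: the criterion for the flat itself gives it for its limits
-/

set_option autoImplicit false

namespace Pool.Agent.H18TB

open Filter Topology Metric

variable {X : Type} [MetricSpace X] {k : ℕ}

/-- Proof.  Let `R` be the constant of `TranslationCocompact`, `C` the constant of `ParallelSetNear i u`,
and `j` a limit flat, `g n • i (x + v n) → j x`.  Choose `h n ∈ G` acting on the flat as the translation by
`w n`, `‖w n - v n‖ ≤ R`, and put `δ n = v n - w n`, `q n = g n * h n`: then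
`g n • i (x + v n) = q n • i (x + δ n)`.  Pass to a subsequence with `δ n → δ`; then
`q n • i y → j (y - δ)` for every `y`.  Let `L` be a line with `dist (L t) (j (t • u)) ≤ D`.  Put
`L' n t = (q n)⁻¹ • L t`; `dist (L' n t) (i (t • u + δ)) = dist (L t) (q n • i (t • u + δ)) →
dist (L t) (j (t • u)) ≤ D`.  By `arzela` a subsequence of `L' n` converges pointwise to a line `L'`
with `dist (L' t) (i (t • u)) ≤ D + ‖δ‖`.  So there is `x` with `dist (L' 0) (i x) ≤ C`, and
`dist (L 0) (j (x - δ)) = lim dist (L 0) (q n • i x) = lim dist (L' n 0) (i x) = dist (L' 0) (i x) ≤ C`. -/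
theorem regular_of_periodic [ProperSpace X] {G : Type} [Group G] [MulAction G X]
    (hiso : ∀ (g : G) (x y : X), dist (g • x) (g • y) = dist x y)
    {i : Euc k → X} (hi : Isometry i) {u : Euc k} (htr : TranslationCocompact G i)
    (hP : ParallelSetNear i u) : RegularDirection G i u := by
  intro j hj
  obtain ⟨R, hR⟩ := htr
  obtain ⟨C, hC⟩ := hP
  obtain ⟨g, v, -, -, hlim⟩ := hj
  choose h w hw hwv using fun n => hR (v n)
  have hδ : ∀ n, v n - w n ∈ closedBall (0 : Euc k) R := by
    intro n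
    rw [mem_closedBall_zero_iff, ← norm_neg, neg_sub]
    exact hwv n
  obtain ⟨δ, -, φ, hφ, hφδ⟩ := (isCompact_closedBall (0 : Euc k) R).tendsto_subseq hδ
  set Q : ℕ → G := fun n => g (φ n) * h (φ n) with hQ
  have hQi : ∀ (n : ℕ) (y : Euc k), Q n • i (y + (v (φ n) - w (φ n))) =
      g (φ n) • i (y + v (φ n)) := by
    intro n y
    rw [hQ]
    show (g (φ n) * h (φ n)) • i (y + (v (φ n) - w (φ n))) = _
    rw [mul_smul, hw]
    congr 2
    abel
  have hQlim : ∀ y : Euc k, Tendsto (fun n => Q n • i y) atTop (𝓝 (j (y - δ))) := by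
    intro y
    rw [tendsto_iff_dist_tendsto_zero]
    have h1 : Tendsto (fun n => g (φ n) • i (y - δ + v (φ n))) atTop (𝓝 (j (y - δ))) :=
      (hlim (y - δ)).comp hφ.tendsto_atTop
    rw [tendsto_iff_dist_tendsto_zero] at h1
    have h2 : Tendsto (fun n => dist (v (φ n) - w (φ n)) δ) atTop (𝓝 0) :=
      tendsto_iff_dist_tendsto_zero.mp hφδ
    have h3 := h2.add h1
    rw [add_zero] at h3
    refine squeeze_zero (fun n => dist_nonneg) (fun n => ?_) h3
    calc dist (Q n • i y) (j (y - δ))
        ≤ dist (Q n • i y) (Q n • i (y - δ + (v (φ n) - w (φ n)))) +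
          dist (Q n • i (y - δ + (v (φ n) - w (φ n)))) (j (y - δ)) := dist_triangle _ _ _
      _ = dist (v (φ n) - w (φ n)) δ + dist (g (φ n) • i (y - δ + v (φ n))) (j (y - δ)) := by
          rw [hiso, hi.dist_eq, hQi n (y - δ), dist_eq_norm, dist_eq_norm (v (φ n) - w (φ n)) δ,
            ← norm_neg (y - (y - δ + (v (φ n) - w (φ n))))]
          congr 2
          abel
  refine ⟨C, fun L hL ⟨D, hD⟩ => ?_⟩
  set f : ℕ → ℝ → X := fun n t => (Q n)⁻¹ • L t with hf
  have hinv : ∀ (q : G) (x y : X), dist (q⁻¹ • x) y = dist x (q • y) := by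
    intro q x y
    have := hiso q (q⁻¹ • x) y
    rw [smul_inv_smul] at this
    exact this.symm
  have hfd : ∀ (n : ℕ) (t : ℝ) (y : Euc k), dist (f n t) (i y) = dist (L t) (Q n • i y) :=
    fun n t y => hinv (Q n) (L t) (i y)
  have hfl : ∀ (n : ℕ) (s t : ℝ), dist (f n s) (f n t) = |s - t| := by
    intro n s t
    rw [hf]
    show dist ((Q n)⁻¹ • L s) ((Q n)⁻¹ • L t) = _
    rw [hiso, hL s t]
  have hfdlim : ∀ (t : ℝ) (y : Euc k), Tendsto (fun n => dist (f n t) (i y)) atTop
      (𝓝 (dist (L t) (j (y - δ)))) := by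
    intro t y
    simp only [hfd]
    exact (tendsto_const_nhds (x := L t)).dist (hQlim y)
  obtain ⟨ψ, hψ, F, hF⟩ := arzela f (i δ) (fun t => by
      refine ⟨dist (L t) (j (δ - δ)) + 1, ?_⟩
      exact ((hfdlim t δ).eventually (gt_mem_nhds (lt_add_one _))).mono fun n hn => hn.le)
    (fun s t => Eventually.of_forall fun n => (hfl n s t).le)
  have hFdist : ∀ (t : ℝ) (y : Euc k), dist (F t) (i y) = dist (L t) (j (y - δ)) := by
    intro t y
    exact tendsto_nhds_unique ((hF t).dist (tendsto_const_nhds (x := i y)))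
      ((hfdlim t y).comp hψ.tendsto_atTop)
  have hFline : IsLine F := by
    intro s t
    have h1 : Tendsto (fun n => dist (f (ψ n) s) (f (ψ n) t)) atTop (𝓝 (dist (F s) (F t))) :=
      (hF s).dist (hF t)
    simp only [hfl] at h1
    exact (tendsto_nhds_unique h1 tendsto_const_nhds)
  obtain ⟨x, hx⟩ := hC F hFline ⟨D + ‖δ‖, fun t => by
    calc dist (F t) (i (t • u)) ≤ dist (F t) (i (t • u + δ)) + dist (i (t • u + δ)) (i (t • u)) :=
          dist_triangle _ _ _
      _ ≤ D + ‖δ‖ := by
          rw [hFdist, hi.dist_eq, add_sub_cancel_right, dist_eq_norm, add_sub_cancel_left]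
          exact add_le_add (hD t) le_rfl⟩
  refine ⟨x - δ, ?_⟩
  rw [← hFdist]
  exact hx

end Pool.Agent.H18TB
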