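import Pool.Agent.Lib.H18TB.G1A

/-!
# G1: geodesic segments in a proper CAT(0) space
-/

set_option autoImplicit false

namespace Pool.Agent.H18TB

open Filter Topology Metric

variable {X : Type} [MetricSpace X] [ProperSpace X]

/-- Uniqueness of the dividing point.  Proof: the midpoint `m` of `z` and `z'` satisfies, by
`IsMid.cn`, `dist x m ^ 2 ≤ (l * d) ^ 2 - dist z z' ^ 2 / 4` and
`dist y m ^ 2 ≤ ((1 - l) * d) ^ 2 - dist z z' ^ 2 / 4`, and
`d ≤ dist x m + dist m y`; so `dist z z' = 0`. -/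
theorem ratio_unique {X : Type} [MetricSpace X] (hX : IsCAT0 X) (x y : X) {l : ℝ} (h0 : 0 ≤ l)
    (h1 : l ≤ 1) {z z' : X}
    (hz : dist x z ≤ l * dist x y) (hz2 : dist z y ≤ (1 - l) * dist x y)
    (hz' : dist x z' ≤ l * dist x y) (hz2' : dist z' y ≤ (1 - l) * dist x y) : z = z' := by
  obtain ⟨m, hm⟩ := exists_mid hX z z'
  have hx := hm.cn hX x
  have hy := hm.cn hX y
  have hd : 0 ≤ dist x y := dist_nonneg
  have htri := dist_triangle x m y
  rw [dist_comm m y] at htri
  have hz2c : dist y z ≤ (1 - l) * dist x y := by rw [dist_comm]; exact hz2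
  have hz2c' : dist y z' ≤ (1 - l) * dist x y := by rw [dist_comm]; exact hz2'
  have hA : 0 ≤ l * dist x y := mul_nonneg h0 hd
  have hB : 0 ≤ (1 - l) * dist x y := mul_nonneg (by linarith) hd
  have e1 : dist x z ^ 2 ≤ (l * dist x y) ^ 2 := pow_le_pow_left₀ dist_nonneg hz 2
  have e2 : dist x z' ^ 2 ≤ (l * dist x y) ^ 2 := pow_le_pow_left₀ dist_nonneg hz' 2
  have e3 : dist y z ^ 2 ≤ ((1 - l) * dist x y) ^ 2 := pow_le_pow_left₀ dist_nonneg hz2c 2
  have e4 : dist y z' ^ 2 ≤ ((1 - l) * dist x y) ^ 2 := pow_le_pow_left₀ dist_nonneg hz2c' 2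
  have f1 : dist x m ≤ l * dist x y := by
    apply le_of_sq_le_sq _ hA
    nlinarith [sq_nonneg (dist z z')]
  have f2 : dist y m ≤ (1 - l) * dist x y := by
    apply le_of_sq_le_sq _ hB
    nlinarith [sq_nonneg (dist z z')]
  have g1 : dist x m = l * dist x y := le_antisymm f1 (by linarith)
  rw [g1] at hx
  have h : dist z z' ^ 2 ≤ 0 := by nlinarith
  have h2 : dist z z' = 0 := by
    have := sq_nonneg (dist z z')
    exact pow_eq_zero_iff (two_ne_zero) |>.1 (le_antisymm h this)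
  exact dist_eq_zero.1 h2

/-- Geodesic segments exist.  Proof: if `x = y` take the constant map.  Otherwise let `d = dist x y`
and `γ t` the point of `exists_ratio` for `l = t / d` (for `0 ≤ t ≤ d`).  For `0 ≤ s ≤ t ≤ d`, let
`z` be the point of `exists_ratio` for the pair `x, γ t` with ratio `s / t`:
`dist x z = s`, `dist z (γ t) = t - s`, so `dist z y ≤ (t - s) + (d - t) = d - s`, and `z = γ s` by
`ratio_unique`; hence `dist (γ s) (γ t) = t - s`. -/
theorem exists_segment (hX : IsCAT0 X) (x y : X) :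
    ∃ γ : ℝ → X, γ 0 = x ∧ γ (dist x y) = y ∧ IsAff γ 0 (dist x y) 1 := by
  rcases eq_or_ne x y with rfl | hne
  · refine ⟨fun _ => x, rfl, rfl, ?_⟩
    intro s hs t ht
    rw [dist_self] at hs ht ⊢
    have h1 : s = 0 := le_antisymm hs.2 hs.1
    have h2 : t = 0 := le_antisymm ht.2 ht.1
    rw [h1, h2]; simp
  have hd : 0 < dist x y := dist_pos.2 hne
  have hex : ∀ t : ℝ, ∃ z : X, 0 ≤ t → t ≤ dist x y → dist x z = t ∧ dist z y = dist x y - t := by
    intro t
    by_cases h : 0 ≤ t ∧ t ≤ dist x y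
    · obtain ⟨z, hz1, hz2⟩ := exists_ratio hX x y (l := t / dist x y)
        (div_nonneg h.1 hd.le) ((div_le_one hd).2 h.2)
      refine ⟨z, fun _ _ => ⟨?_, ?_⟩⟩
      · rw [hz1, div_mul_cancel₀ _ hd.ne']
      · rw [hz2, sub_mul, one_mul, div_mul_cancel₀ _ hd.ne']
    · exact ⟨x, fun h0 h1 => absurd ⟨h0, h1⟩ h⟩
  choose γ hγ using hex
  -- uniqueness
  have huniq : ∀ s : ℝ, 0 ≤ s → s ≤ dist x y → ∀ z : X, dist x z ≤ s → dist z y ≤ dist x y - s →
      z = γ s := by
    intro s hs0 hs1 z hz1 hz2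
    obtain ⟨k1, k2⟩ := hγ s hs0 hs1
    have e1 : s / dist x y * dist x y = s := div_mul_cancel₀ _ hd.ne'
    have e2 : (1 - s / dist x y) * dist x y = dist x y - s := by rw [sub_mul, one_mul, e1]
    apply ratio_unique hX x y (l := s / dist x y) (div_nonneg hs0 hd.le) ((div_le_one hd).2 hs1)
    · rw [e1]; exact hz1
    · rw [e2]; exact hz2
    · rw [e1]; exact k1.le
    · rw [e2]; exact k2.le
  have key : ∀ s t : ℝ, 0 ≤ s → s ≤ t → t ≤ dist x y → dist (γ s) (γ t) = t - s := by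
    intro s t hs hst ht
    obtain ⟨k1, k2⟩ := hγ t (hs.trans hst) ht
    rcases eq_or_lt_of_le (hs.trans hst) with h0 | h0
    · have h1 : s = 0 := by linarith
      have h2 : t = 0 := h0.symm
      rw [h1, h2]; simp
    obtain ⟨z, hz1, hz2⟩ := exists_ratio hX x (γ t) (l := s / t)
      (div_nonneg hs h0.le) ((div_le_one h0).2 hst)
    have e1 : dist x z = s := by rw [hz1, k1, div_mul_cancel₀ _ h0.ne']
    have e2 : dist z (γ t) = t - s := by
      rw [hz2, k1, sub_mul, one_mul, div_mul_cancel₀ _ h0.ne']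
    have e3 : dist z y ≤ dist x y - s := by
      have := dist_triangle z (γ t) y
      linarith
    have e4 := huniq s hs (hst.trans ht) z e1.le e3
    rw [← e4]
    exact e2
  refine ⟨γ, ?_, ?_, ?_⟩
  · exact (huniq 0 le_rfl hd.le x (by rw [dist_self]) (by rw [sub_zero])).symm
  · exact (huniq (dist x y) hd.le le_rfl y le_rfl (by rw [dist_self, sub_self])).symm
  · intro s hs t ht
    rw [one_mul]
    rcases le_total s t with h | h
    · rw [key s t hs.1 h ht.2, abs_sub_comm, abs_of_nonneg (sub_nonneg.2 h)]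
    · rw [dist_comm, key t s ht.1 h hs.2, abs_of_nonneg (sub_nonneg.2 h)]

end Pool.Agent.H18TB
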