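import Pool.Agent.Lib.H18TB.FL
import Pool.Agent.Lib.H18TB.G1

/-!
# F2B: the diagonal of a strip
-/

set_option autoImplicit false

namespace Pool.Agent.H18TB

open Filter Topology Metric

variable {X : Type} [MetricSpace X] {k : ℕ}

/-- The diagonal of a strip.  Proof.  Let `q = L (K * d)`, `ℓ = dist (i z) q`, so
`(K - 1) * d ≤ ℓ ≤ (K + 1) * d` and `|ℓ - K * d| ≤ d`, and let `σ` be the segment from `i z` to `q`
(`exists_segment`).  (a) `t ↦ dist (σ t) (i (z + t • u))` is convex on `[0, ℓ]` (`dist_convex`), `0` at `0` and at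
most `d + |ℓ - K * d| ≤ 2 * d` at `ℓ`, so it is at most `t / ℓ * (2 * d) ≤ 2 * t / (K - 1)`.
(b) `b t = infDist (σ t) (range L)` is convex on `[0, ℓ]` (`infDist_convex`, `line_midClosed`),
at most `d` at `0` and `0` at `ℓ`, so `b t ≤ (1 - t / ℓ) * d`; every point of `range L` has
distance at least `d` from `i x`, so `dist (i x) (σ t) ≥ d - b t ≥ t * d / ℓ ≥ t / (K + 1)`. -/
theorem strip_diagonal [ProperSpace X] (hX : IsCAT0 X) {i : Euc k → X} (hi : Isometry i)
    {u : Euc k} (hu : ‖u‖ = 1) {L : ℝ → X} (hL : IsLine L) {z : Euc k} {d K : ℝ} (hd : 0 < d)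
    (hK : 1 < K) (h1 : ∀ t : ℝ, dist (L t) (i (z + t • u)) = d)
    (h2 : ∀ (t : ℝ) (x : Euc k), d ≤ dist (L t) (i x)) :
    ∃ (σ : ℝ → X) (l : ℝ), (K - 1) * d ≤ l ∧ IsAff σ 0 l 1 ∧ σ 0 = i z ∧
      (∀ t : ℝ, 0 ≤ t → t ≤ l → dist (σ t) (i (z + t • u)) ≤ 2 * t / (K - 1)) ∧
      (∀ t : ℝ, 0 ≤ t → t ≤ l → ∀ x : Euc k, t / (K + 1) ≤ dist (σ t) (i x)) := by
  have hK0 : 0 < K := by linarith
  have hKd : 0 < K * d := mul_pos hK0 hd
  have h10 : dist (L 0) (i z) = d := by
    have h := h1 0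
    rw [zero_smul, add_zero] at h
    exact h
  have hL0 : dist (L 0) (L (K * d)) = K * d := by
    rw [hL 0 (K * d), zero_sub, abs_neg, abs_of_pos hKd]
  obtain ⟨σ, hσ0, hσ1, hσ⟩ := exists_segment hX (i z) (L (K * d))
  obtain ⟨l, hl⟩ : ∃ l : ℝ, l = dist (i z) (L (K * d)) := ⟨_, rfl⟩
  rw [← hl] at hσ1 hσ
  have hl1 : (K - 1) * d ≤ l := by
    have h := dist_triangle (L 0) (i z) (L (K * d))
    rw [hL0, h10, ← hl] at h
    linarith
  have hl2 : l ≤ (K + 1) * d := by
    have h := dist_triangle (i z) (L 0) (L (K * d))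
    rw [hL0, dist_comm (i z) (L 0), h10, ← hl] at h
    linarith
  have hlpos : 0 < l := lt_of_lt_of_le (mul_pos (by linarith) hd) hl1
  refine ⟨σ, l, hl1, hσ, hσ0, ?_, ?_⟩
  · intro t ht0 ht1
    have hc := dist_convex hX hσ ((flat_line hi hu z).isAff 0 l) (t := t) ⟨ht0, ht1⟩
    have e0 : dist (σ 0) (i (z + (0 : ℝ) • u)) = 0 := by
      rw [zero_smul, add_zero, hσ0, dist_self]
    have e1 : dist (σ l) (i (z + l • u)) ≤ 2 * d := by
      have a1 := dist_triangle (L (K * d)) (i (z + (K * d) • u)) (i (z + l • u))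
      rw [h1 (K * d), hi.dist_eq, dist_add_left, dist_eq_norm, ← sub_smul, norm_smul, hu, mul_one,
        Real.norm_eq_abs] at a1
      have a2 : |K * d - l| ≤ d := by
        rw [abs_le]
        constructor <;> linarith
      rw [hσ1]
      linarith
    rw [e0, mul_zero, zero_add, sub_zero, sub_zero] at hc
    have hc2 : l * dist (σ t) (i (z + t • u)) ≤ t * (2 * d) :=
      hc.trans (mul_le_mul_of_nonneg_left e1 ht0)
    rw [le_div_iff₀ (by linarith : (0 : ℝ) < K - 1)]
    have hD : 0 ≤ dist (σ t) (i (z + t • u)) := dist_nonneg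
    have h3 : (K - 1) * d * dist (σ t) (i (z + t • u)) ≤ l * dist (σ t) (i (z + t • u)) :=
      mul_le_mul_of_nonneg_right hl1 hD
    have h4 : d * (dist (σ t) (i (z + t • u)) * (K - 1)) ≤ d * (2 * t) := by linarith
    exact le_of_mul_le_mul_left h4 hd
  · intro t ht0 ht1 x
    have hne : (Set.range L).Nonempty := ⟨L 0, Set.mem_range_self 0⟩
    have hc := infDist_convex hX (line_midClosed hX hL) hne hσ (t := t) ⟨ht0, ht1⟩
    have e0 : infDist (σ 0) (Set.range L) ≤ d := by
      rw [hσ0, ← h10, dist_comm (L 0) (i z)]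
      exact Metric.infDist_le_dist_of_mem (Set.mem_range_self 0)
    have e1 : infDist (σ l) (Set.range L) = 0 := by
      rw [hσ1]
      exact Metric.infDist_zero_of_mem (Set.mem_range_self (K * d))
    rw [e1, mul_zero, add_zero, sub_zero] at hc
    have hc2 : l * infDist (σ t) (Set.range L) ≤ (l - t) * d :=
      hc.trans (mul_le_mul_of_nonneg_left e0 (by linarith))
    have hx : d ≤ infDist (i x) (Set.range L) := by
      rw [Metric.le_infDist hne]
      rintro _ ⟨s, rfl⟩
      rw [dist_comm]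
      exact h2 s x
    have hx2 : infDist (i x) (Set.range L) ≤ infDist (σ t) (Set.range L) + dist (i x) (σ t) :=
      Metric.infDist_le_infDist_add_dist
    rw [dist_comm (i x) (σ t)] at hx2
    have hD : 0 ≤ dist (σ t) (i x) := dist_nonneg
    have h3 : l * (d - infDist (σ t) (Set.range L)) ≤ l * dist (σ t) (i x) :=
      mul_le_mul_of_nonneg_left (by linarith) hlpos.le
    have h4 : l * dist (σ t) (i x) ≤ (K + 1) * d * dist (σ t) (i x) :=
      mul_le_mul_of_nonneg_right hl2 hD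
    have h5 : d * t ≤ d * (dist (σ t) (i x) * (K + 1)) := by
      have e : l * (d - infDist (σ t) (Set.range L)) = l * d - l * infDist (σ t) (Set.range L) := by
        ring
      rw [e] at h3
      linarith
    rw [div_le_iff₀ (by linarith : (0 : ℝ) < K + 1)]
    exact le_of_mul_le_mul_left h5 hd

end Pool.Agent.H18TB
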