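import Pool.Agent.Lib.H18TB.F2A
import Pool.Agent.Lib.H18TB.F2B
import Pool.Agent.Lib.H18TB.AA

/-!
# F2: the converse for periodic flats
-/

set_option autoImplicit false

namespace Pool.Agent.H18TB

open Filter Topology Metric

variable {X : Type} [MetricSpace X] {k : ℕ}

/-- Proof.  Suppose `ParallelSetNear i u` fails; let `ε` be the constant of `InteriorDirection` and
`K > 1` with `2 / (K - 1) ≤ ε`.  For every `n` take `L`, `z n`, `d n ≥ n + 1` from `far_line_translate` and
`σ n`, `l n` from `strip_diagonal`.  Pass to a subsequence with `z n → z` (`‖z n‖ ≤ R`), then by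
`arzela` (after precomposition with `t ↦ max t 0`; `l n → ∞`) to one along which `σ n` converges
pointwise on `[0, ∞)` to a ray `r` with
`dist (r t) (i (z + t • u)) ≤ 2 * t / (K - 1) ≤ ε * t` and `t / (K + 1) ≤ dist (r t) (i x)` for all
`x`.  So `dist (r t) (i (t • u)) ≤ ‖z‖ + ε * t`, and `InteriorDirection` gives
`dist (r t) (i (t • w)) ≤ D` for all `t ≥ 0`, a contradiction for `t / (K + 1) > D`. -/
theorem near_of_interior [ProperSpace X] (hX : IsCAT0 X) {G : Type} [Group G] [MulAction G X]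
    (hiso : ∀ (g : G) (x y : X), dist (g • x) (g • y) = dist x y)
    {i : Euc k → X} (hi : Isometry i) {u : Euc k} (hu : ‖u‖ = 1) (htr : TranslationCocompact G i)
    (hint : InteriorDirection i u) : ParallelSetNear i u := by
  by_contra hnot
  obtain ⟨ε, hε, hint⟩ := hint
  obtain ⟨R, hR⟩ := htr
  set K : ℝ := 1 + 2 / ε with hK
  have hK1 : 1 < K := by
    have : 0 < 2 / ε := by positivity
    linarith
  have hKε : ∀ t : ℝ, 2 * t / (K - 1) = ε * t := by
    intro t
    rw [hK, add_sub_cancel_left]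
    field_simp
  have hex : ∀ n : ℕ, ∃ (z : Euc k) (σ : ℝ → X) (l : ℝ), ‖z‖ ≤ R ∧ (K - 1) * ((n : ℝ) + 1) ≤ l ∧
      IsAff σ 0 l 1 ∧ (∀ t : ℝ, 0 ≤ t → t ≤ l → dist (σ t) (i (z + t • u)) ≤ ε * t) ∧
      (∀ t : ℝ, 0 ≤ t → t ≤ l → ∀ x : Euc k, t / (K + 1) ≤ dist (σ t) (i x)) := by
    intro n
    obtain ⟨L, z, d, hL, hz, hd, h1, h2⟩ := far_line_translate hX hiso hi hu hR hnot ((n : ℝ) + 1)
    have hn : (0 : ℝ) ≤ n := Nat.cast_nonneg n
    obtain ⟨σ, l, hl, hσ, -, h3, h4⟩ := strip_diagonal hX hi hu hL (by linarith) hK1 h1 h2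
    refine ⟨z, σ, l, hz, ?_, hσ, fun t ht htl => ?_, h4⟩
    · exact (mul_le_mul_of_nonneg_left hd (by linarith)).trans hl
    · rw [← hKε]
      exact h3 t ht htl
  choose z σ l hz hl hσ h3 h4 using hex
  obtain ⟨z', -, φ, hφ, hφz⟩ := (isCompact_closedBall (0 : Euc k) R).tendsto_subseq
    (fun n => mem_closedBall_zero_iff.mpr (hz n))
  have hlt : ∀ t : ℝ, ∀ᶠ n in atTop, t ≤ l (φ n) := by
    intro t
    have h5 : Tendsto l atTop atTop := by
      refine tendsto_atTop_mono hl ?_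
      refine Tendsto.const_mul_atTop (by linarith) ?_
      exact tendsto_atTop_add_const_right _ _ tendsto_natCast_atTop_atTop
    exact (h5.comp hφ.tendsto_atTop).eventually_ge_atTop t
  obtain ⟨ψ, hψ, F, hF⟩ := arzela (fun n t => σ (φ n) (max t 0)) (i 0) (fun t => by
      refine ⟨ε * max t 0 + (R + max t 0), ?_⟩
      refine (hlt (max t 0)).mono fun n hn => ?_
      have h0 : 0 ≤ max t 0 := le_max_right _ _
      calc dist (σ (φ n) (max t 0)) (i 0)
          ≤ dist (σ (φ n) (max t 0)) (i (z (φ n) + max t 0 • u)) +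
            dist (i (z (φ n) + max t 0 • u)) (i 0) := dist_triangle _ _ _
        _ ≤ ε * max t 0 + (R + max t 0) := by
            refine add_le_add (h3 (φ n) _ h0 hn) ?_
            rw [hi.dist_eq, dist_zero_right]
            refine (norm_add_le _ _).trans (add_le_add (hz _) ?_)
            rw [norm_smul, hu, mul_one, Real.norm_eq_abs, abs_of_nonneg h0])
    (fun s t => by
      filter_upwards [hlt (max s 0), hlt (max t 0)] with n hn1 hn2
      rw [hσ (φ n) (max s 0) ⟨le_max_right _ _, hn1⟩ (max t 0) ⟨le_max_right _ _, hn2⟩, one_mul,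
        Real.dist_eq]
      exact abs_max_sub_max_le_abs s t 0)
  have hlψ : ∀ t : ℝ, ∀ᶠ n in atTop, t ≤ l (φ (ψ n)) := fun t =>
    hψ.tendsto_atTop.eventually (hlt t)
  have hF' : ∀ t : ℝ, 0 ≤ t → Tendsto (fun n => σ (φ (ψ n)) t) atTop (𝓝 (F t)) := by
    intro t ht
    have := hF t
    simp only [max_eq_left ht] at this
    exact this
  have hray : IsRay F := by
    intro s t hs ht
    have h1 : Tendsto (fun n => dist (σ (φ (ψ n)) s) (σ (φ (ψ n)) t)) atTop
        (𝓝 (dist (F s) (F t))) := (hF' s hs).dist (hF' t ht)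
    refine tendsto_nhds_unique h1 (tendsto_const_nhds.congr' ?_)
    filter_upwards [hlψ s, hlψ t] with n hn1 hn2
    rw [hσ (φ (ψ n)) s ⟨hs, hn1⟩ t ⟨ht, hn2⟩, one_mul]
  have hzψ : Tendsto (fun n => z (φ (ψ n))) atTop (𝓝 z') := hφz.comp hψ.tendsto_atTop
  obtain ⟨w, hw, D, hD⟩ := hint F hray ⟨‖z'‖, fun t ht => by
    have h1 : Tendsto (fun n => dist (σ (φ (ψ n)) t) (i (z (φ (ψ n)) + t • u))) atTop
        (𝓝 (dist (F t) (i (z' + t • u)))) :=
      (hF' t ht).dist ((hi.continuous.tendsto _).comp (hzψ.add_const _))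
    have h2 : dist (F t) (i (z' + t • u)) ≤ ε * t := by
      refine le_of_tendsto h1 ?_
      filter_upwards [hlψ t] with n hn
      exact h3 _ t ht hn
    calc dist (F t) (i (t • u)) ≤ dist (F t) (i (z' + t • u)) +
          dist (i (z' + t • u)) (i (t • u)) := dist_triangle _ _ _
      _ ≤ ε * t + ‖z'‖ := by
          rw [hi.dist_eq, dist_eq_norm, add_sub_cancel_right]
          exact add_le_add h2 le_rfl
      _ = ‖z'‖ + ε * t := add_comm _ _⟩
  have hK0 : 0 < K + 1 := by linarith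
  have ht0 : 0 ≤ (K + 1) * (|D| + 1) := by positivity
  have hlow : ∀ x : Euc k, (K + 1) * (|D| + 1) / (K + 1) ≤ dist (F ((K + 1) * (|D| + 1))) (i x) := by
    intro x
    refine ge_of_tendsto ((hF' _ ht0).dist (tendsto_const_nhds (x := i x))) ?_
    filter_upwards [hlψ ((K + 1) * (|D| + 1))] with n hn
    exact h4 _ _ ht0 hn x
  have h5 := hlow (((K + 1) * (|D| + 1)) • w)
  have h6 := hD _ ht0
  rw [mul_div_cancel_left₀ _ hK0.ne'] at h5
  have h7 := le_abs_self D
  linarith

end Pool.Agent.H18TB
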