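import Pool.Agent.Lib.H18TB.FL

/-!
# F2A: a far line near the base point
-/

set_option autoImplicit false

namespace Pool.Agent.H18TB

open Filter Topology Metric

variable {X : Type} [MetricSpace X] {k : ℕ}

/-- A far line near the base point.  Proof.  The negation of `ParallelSetNear i u` with `C = n`
gives a line `L₀` parallel to `t ↦ i (t • u)` with `dist (L₀ 0) (i x) > n` for all `x`; let `i z₀` be the
nearest point of `L₀ 0` (`flat_nearest`), `d` the distance.  Choose `h ∈ G` acting on the flat as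
the translation by `w` with `‖w + z₀‖ ≤ R` and put `L t = h • L₀ t`, `z = z₀ + w`.  By
`line_dist_const` for `L` and `t ↦ i (z + t • u)` (at bounded distance) the distance
`dist (L t) (i (z + t • u))` is constant, equal to `d`; by `line_infDist_const` (with `flat_midClosed`)
`infDist (L t) (range i)` is constant, equal to `d`, so `d ≤ dist (L t) (i x)`. -/
theorem far_line_translate (hX : IsCAT0 X) {G : Type} [Group G] [MulAction G X]
    (hiso : ∀ (g : G) (x y : X), dist (g • x) (g • y) = dist x y)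
    {i : Euc k → X} (hi : Isometry i) {u : Euc k} (hu : ‖u‖ = 1) {R : ℝ}
    (htr : ∀ v : Euc k, ∃ (g : G) (w : Euc k), (∀ x : Euc k, g • i x = i (x + w)) ∧ ‖w - v‖ ≤ R)
    (hnot : ¬ ParallelSetNear i u) (n : ℝ) :
    ∃ (L : ℝ → X) (z : Euc k) (d : ℝ), IsLine L ∧ ‖z‖ ≤ R ∧ n ≤ d ∧
      (∀ t : ℝ, dist (L t) (i (z + t • u)) = d) ∧ ∀ (t : ℝ) (x : Euc k), d ≤ dist (L t) (i x) := by
  unfold ParallelSetNear at hnot
  push Not at hnot
  obtain ⟨L₀, hL₀, ⟨D, hD⟩, hfar⟩ := hnot n
  obtain ⟨z₀, hz₀⟩ := flat_nearest hi (L₀ 0)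
  obtain ⟨h, w, hh, hw⟩ := htr (-z₀)
  have hne : (Set.range i).Nonempty := ⟨i 0, 0, rfl⟩
  have hconst : ∀ t : ℝ, dist (L₀ t) (i (z₀ + t • u)) = dist (L₀ 0) (i z₀) := by
    intro t
    have h1 := line_dist_const hX hL₀ (flat_line hi hu z₀) (D := D + ‖z₀‖) (fun s => by
      refine (dist_triangle _ (i (s • u)) _).trans ?_
      have h2 : dist (i (s • u)) (i (z₀ + s • u)) = ‖z₀‖ := by
        rw [hi.dist_eq, dist_eq_norm, ← norm_neg]
        congr 1
        abel
      rw [h2]
      linarith [hD s]) t 0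
    rw [h1, zero_smul, add_zero]
  have hinf : ∀ t : ℝ, infDist (L₀ t) (Set.range i) = infDist (L₀ 0) (Set.range i) := by
    intro t
    exact line_infDist_const hX (flat_midClosed hX hi) hne hL₀ (D := D)
      (fun s => (infDist_le_dist_of_mem (Set.mem_range_self (s • u))).trans (hD s)) t 0
  refine ⟨fun t => h • L₀ t, z₀ + w, dist (L₀ 0) (i z₀), ?_, ?_, (hfar z₀).le, ?_, ?_⟩
  · intro s t
    rw [hiso]
    exact hL₀ s t
  · have h3 : z₀ + w = w - -z₀ := by abel
    rw [h3]
    exact hw
  · intro t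
    have h3 : i (z₀ + w + t • u) = h • i (z₀ + t • u) := by
      rw [hh]
      congr 1
      abel
    show dist (h • L₀ t) (i (z₀ + w + t • u)) = _
    rw [h3, hiso]
    exact hconst t
  · intro t x
    have h3 : i x = h • i (x - w) := by
      rw [hh, sub_add_cancel]
    show _ ≤ dist (h • L₀ t) (i x)
    rw [h3, hiso, hz₀, ← hinf t]
    exact infDist_le_dist_of_mem (Set.mem_range_self (x - w))

end Pool.Agent.H18TB
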