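import Pool.Agent.Lib.H18TB.G2

/-!
# FL: flats
-/

set_option autoImplicit false

namespace Pool.Agent.H18TB

open Filter Topology Metric

variable {X : Type} [MetricSpace X] {k : ℕ}

/-- The midpoint of two points of a flat. -/
theorem flat_mid {i : Euc k → X} (hi : Isometry i) (x y : Euc k) :
    IsMid (i x) (i y) (i ((1 / 2 : ℝ) • (x + y))) := by
  have h1 : x - (1 / 2 : ℝ) • (x + y) = (1 / 2 : ℝ) • (x - y) := by
    rw [smul_add, smul_sub]
    have hx : x = (1 / 2 : ℝ) • x + (1 / 2 : ℝ) • x := by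
      rw [← add_smul]
      norm_num
    nth_rewrite 1 [hx]
    abel
  have h2 : y - (1 / 2 : ℝ) • (x + y) = -((1 / 2 : ℝ) • (x - y)) := by
    rw [smul_add, smul_sub]
    have hy : y = (1 / 2 : ℝ) • y + (1 / 2 : ℝ) • y := by
      rw [← add_smul]
      norm_num
    nth_rewrite 1 [hy]
    abel
  refine ⟨?_, ?_⟩
  · rw [hi.dist_eq, hi.dist_eq, dist_eq_norm, dist_eq_norm, h1, norm_smul]
    norm_num
    ring
  · rw [hi.dist_eq, hi.dist_eq, dist_eq_norm, dist_eq_norm, h2, norm_neg, norm_smul]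
    norm_num
    ring

/-- Flats are closed under midpoints.  Proof: `flat_mid` and `IsMid.unique`. -/
theorem flat_midClosed (hX : IsCAT0 X) {i : Euc k → X} (hi : Isometry i) :
    MidClosed (Set.range i) := by
  rintro a ⟨x, rfl⟩ b ⟨y, rfl⟩ m hm
  exact ⟨_, IsMid.unique hX (flat_mid hi x y) hm⟩

/-- Lines are closed under midpoints. -/
theorem line_midClosed (hX : IsCAT0 X) {L : ℝ → X} (hL : IsLine L) :
    MidClosed (Set.range L) := by
  rintro a ⟨s, rfl⟩ b ⟨t, rfl⟩ m hm
  have h := (hL.isAff (min s t) (max s t)).mid (s := s) (t := t)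
    ⟨min_le_left _ _, le_max_left _ _⟩ ⟨min_le_right _ _, le_max_right _ _⟩
  exact ⟨_, IsMid.unique hX h hm⟩

/-- A nearest point of a flat.  Proof: the image of `i` is closed and proper, or minimise the
continuous function `x ↦ dist a (i x)`, which tends to infinity, over `Euc k`. -/
theorem flat_nearest {i : Euc k → X} (hi : Isometry i) (a : X) :
    ∃ x : Euc k, dist a (i x) = infDist a (Set.range i) := by
  have hcont : Continuous (fun x : Euc k => dist a (i x)) :=
    continuous_const.dist hi.continuous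
  obtain ⟨x, hx⟩ : ∃ x : Euc k, ∀ y : Euc k, dist a (i x) ≤ dist a (i y) := by
    set R : ℝ := 2 * dist a (i 0) with hR
    have hR0 : 0 ≤ R := by positivity
    obtain ⟨x, hxm, hx⟩ := (isCompact_closedBall (0 : Euc k) R).exists_isMinOn
      ⟨0, mem_closedBall_self hR0⟩ hcont.continuousOn
    refine ⟨x, fun y => ?_⟩
    by_cases hy : y ∈ closedBall (0 : Euc k) R
    · exact hx hy
    · have h0 : dist a (i x) ≤ dist a (i 0) := hx (mem_closedBall_self hR0)
      have h1 : R < dist y 0 := by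
        rw [mem_closedBall, not_le] at hy
        exact hy
      have h2 : dist (i y) (i 0) = dist y 0 := hi.dist_eq _ _
      have h3 : dist (i y) (i 0) ≤ dist a (i y) + dist a (i 0) := by
        rw [dist_comm a (i y)]
        exact dist_triangle _ _ _
      linarith
  refine ⟨x, le_antisymm ?_ (infDist_le_dist_of_mem ⟨x, rfl⟩)⟩
  have hne : (Set.range i).Nonempty := ⟨i x, x, rfl⟩
  refine (le_infDist hne).mpr ?_
  rintro _ ⟨y, rfl⟩
  exact hx y

theorem flat_line {i : Euc k → X} (hi : Isometry i) {w : Euc k} (hw : ‖w‖ = 1) (x : Euc k) :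
    IsLine (fun t : ℝ => i (x + t • w)) := by
  intro s t
  show dist (i (x + s • w)) (i (x + t • w)) = |s - t|
  rw [hi.dist_eq, dist_eq_norm, add_sub_add_left_eq_sub, ← sub_smul, norm_smul, hw, mul_one,
    Real.norm_eq_abs]

theorem flat_line0 {i : Euc k → X} (hi : Isometry i) {w : Euc k} (hw : ‖w‖ = 1) :
    IsLine (fun t : ℝ => i (t • w)) := by
  intro s t
  show dist (i (s • w)) (i (t • w)) = |s - t|
  rw [hi.dist_eq, dist_eq_norm, ← sub_smul, norm_smul, hw, mul_one, Real.norm_eq_abs]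

/-- A geodesic ray of Euclidean space starting at `0`.  Proof: polarisation gives
`⟪y s, y t⟫ = s * t`, so `‖y t - t • y 1‖ ^ 2 = 0`. -/
theorem euc_ray {y : ℝ → Euc k} (h0 : y 0 = 0)
    (hy : ∀ s t : ℝ, 0 ≤ s → 0 ≤ t → dist (y s) (y t) = |s - t|) :
    ‖y 1‖ = 1 ∧ ∀ t : ℝ, 0 ≤ t → y t = t • y 1 := by
  have hn : ∀ t : ℝ, 0 ≤ t → ‖y t‖ = t := by
    intro t ht
    have h := hy t 0 ht le_rfl
    rw [h0, dist_zero_right, sub_zero, abs_of_nonneg ht] at h
    exact h
  refine ⟨hn 1 zero_le_one, fun t ht => ?_⟩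
  have h1 := hn 1 zero_le_one
  have ht' := hn t ht
  have hd := hy t 1 ht zero_le_one
  rw [dist_eq_norm] at hd
  have e1 : ‖y t - y 1‖ ^ 2 = ‖y t‖ ^ 2 - 2 * inner ℝ (y t) (y 1) + ‖y 1‖ ^ 2 :=
    norm_sub_sq_real _ _
  have e2 : ‖y t - t • y 1‖ ^ 2 = ‖y t‖ ^ 2 - 2 * inner ℝ (y t) (t • y 1) + ‖t • y 1‖ ^ 2 :=
    norm_sub_sq_real _ _
  rw [hd, sq_abs, ht', h1] at e1
  rw [inner_smul_right, norm_smul, h1, ht', Real.norm_eq_abs, mul_one, sq_abs] at e2
  have e3 : ‖y t - t • y 1‖ ^ 2 = 0 := by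
    rw [e2]
    have : inner ℝ (y t) (y 1) = t := by linarith
    rw [this]
    ring
  have e4 : ‖y t - t • y 1‖ = 0 := by
    exact pow_eq_zero_iff (two_ne_zero) |>.mp e3
  exact sub_eq_zero.mp (norm_eq_zero.mp e4)

end Pool.Agent.H18TB
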