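import Pool.Agent.Lib.H18TB.M1

/-!
# G1A: dividing a pair of points in a given ratio
-/

set_option autoImplicit false

namespace Pool.Agent.H18TB

open Filter Topology Metric

variable {X : Type} [MetricSpace X] [ProperSpace X]

/-- The point dividing a pair in a given ratio.  Proof.  Let `d = dist x y` and let `S` be the set of
`l ∈ [0, 1]` for which there is a `z` with `dist x z ≤ l * d` and `dist z y ≤ (1 - l) * d`.  `S`
contains `0` and `1`; it is closed under midpoints (take the midpoint of the two `z`'s and use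
`dist_mid_le`); it is closed (if `l n → l`, the `z n` lie in a compact ball, take a
convergent subsequence, `tendsto_subseq_of_bounded`).  A closed midpoint closed subset of `[0, 1]`
containing `0` and `1` is `[0, 1]`: for `l ∉ S` let `a` be the supremum of `S ∩ [0, l]` and
`b` the infimum of `S ∩ [l, 1]`; both are in `S`, `a < l < b`, and the midpoint of `a` and `b` is in
`S`, a contradiction. -/
theorem exists_ratio (hX : IsCAT0 X) (x y : X) {l : ℝ} (h0 : 0 ≤ l) (h1 : l ≤ 1) :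
    ∃ z : X, dist x z = l * dist x y ∧ dist z y = (1 - l) * dist x y := by
  obtain ⟨d, hd⟩ : ∃ d : ℝ, d = dist x y := ⟨_, rfl⟩
  have hd0 : 0 ≤ d := by
    rw [hd]
    exact dist_nonneg
  obtain ⟨S, hS⟩ : ∃ S : Set ℝ, S = {t : ℝ | (0 ≤ t ∧ t ≤ 1) ∧
      ∃ z : X, dist x z ≤ t * d ∧ dist z y ≤ (1 - t) * d} := ⟨_, rfl⟩
  -- it is enough to know `l ∈ S`
  suffices hl : l ∈ S by
    rw [hS] at hl
    obtain ⟨-, z, hz1, hz2⟩ := hl
    have htri := dist_triangle x z y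
    rw [← hd] at htri ⊢
    refine ⟨z, le_antisymm hz1 ?_, le_antisymm hz2 ?_⟩
    · linarith
    · linarith
  have hclosed : IsClosed S := by
    have hK : IsCompact ((Set.Icc (0 : ℝ) 1 ×ˢ closedBall x d) ∩
        ({p : ℝ × X | dist x p.2 ≤ p.1 * d} ∩ {p : ℝ × X | dist p.2 y ≤ (1 - p.1) * d})) := by
      apply (isCompact_Icc.prod (isCompact_closedBall x d)).inter_right
      exact (isClosed_le (by fun_prop) (by fun_prop)).inter (isClosed_le (by fun_prop) (by fun_prop))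
    have himg : S = Prod.fst '' ((Set.Icc (0 : ℝ) 1 ×ˢ closedBall x d) ∩
        ({p : ℝ × X | dist x p.2 ≤ p.1 * d} ∩ {p : ℝ × X | dist p.2 y ≤ (1 - p.1) * d})) := by
      rw [hS]
      ext t
      constructor
      · rintro ⟨⟨ht0, ht1⟩, z, hz1, hz2⟩
        refine ⟨(t, z), ⟨⟨⟨ht0, ht1⟩, ?_⟩, hz1, hz2⟩, rfl⟩
        rw [mem_closedBall, dist_comm]
        have : t * d ≤ 1 * d := mul_le_mul_of_nonneg_right ht1 hd0
        exact hz1.trans (by linarith)
      · rintro ⟨⟨t', z⟩, ⟨⟨⟨ht0, ht1⟩, -⟩, hz1, hz2⟩, rfl⟩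
        exact ⟨⟨ht0, ht1⟩, z, hz1, hz2⟩
    rw [himg]
    exact (hK.image continuous_fst).isClosed
  have hS0 : (0 : ℝ) ∈ S := by
    rw [hS]
    refine ⟨⟨le_refl _, zero_le_one⟩, x, ?_, ?_⟩
    · rw [dist_self, zero_mul]
    · rw [sub_zero, one_mul, hd]
  have hS1 : (1 : ℝ) ∈ S := by
    rw [hS]
    refine ⟨⟨zero_le_one, le_refl _⟩, y, ?_, ?_⟩
    · rw [one_mul, hd]
    · rw [dist_self, sub_self, zero_mul]
  have hmid : ∀ a ∈ S, ∀ b ∈ S, (a + b) / 2 ∈ S := by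
    intro a ha b hb
    rw [hS] at ha hb ⊢
    obtain ⟨⟨ha0, ha1⟩, za, hza1, hza2⟩ := ha
    obtain ⟨⟨hb0, hb1⟩, zb, hzb1, hzb2⟩ := hb
    obtain ⟨m, hm⟩ := exists_mid hX za zb
    refine ⟨⟨by linarith, by linarith⟩, m, ?_, ?_⟩
    · have h := dist_mid_le hX hm x
      rw [dist_comm m x, dist_comm za x, dist_comm zb x] at h
      linarith
    · have h := dist_mid_le hX hm y
      linarith
  by_contra hl
  have hAne : (S ∩ Set.Icc 0 l).Nonempty := ⟨0, hS0, le_refl _, h0⟩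
  have hAbdd : BddAbove (S ∩ Set.Icc 0 l) := ⟨l, fun t ht => ht.2.2⟩
  have hAcl : IsClosed (S ∩ Set.Icc 0 l) := hclosed.inter isClosed_Icc
  have hBne : (S ∩ Set.Icc l 1).Nonempty := ⟨1, hS1, h1, le_refl _⟩
  have hBbdd : BddBelow (S ∩ Set.Icc l 1) := ⟨l, fun t ht => ht.2.1⟩
  have hBcl : IsClosed (S ∩ Set.Icc l 1) := hclosed.inter isClosed_Icc
  obtain ⟨a, ha⟩ : ∃ a, a = sSup (S ∩ Set.Icc 0 l) := ⟨_, rfl⟩
  obtain ⟨b, hb⟩ : ∃ b, b = sInf (S ∩ Set.Icc l 1) := ⟨_, rfl⟩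
  have haA : a ∈ S ∩ Set.Icc 0 l := by
    rw [ha]
    exact hAcl.csSup_mem hAne hAbdd
  have hbB : b ∈ S ∩ Set.Icc l 1 := by
    rw [hb]
    exact hBcl.csInf_mem hBne hBbdd
  have hal : a < l := lt_of_le_of_ne haA.2.2 (fun h => hl (h ▸ haA.1))
  have hlb : l < b := lt_of_le_of_ne hbB.2.1 (fun h => hl (h ▸ hbB.1))
  have hc := hmid a haA.1 b hbB.1
  rcases le_total ((a + b) / 2) l with h | h
  · have h3 : (a + b) / 2 ≤ a := by
      conv_rhs => rw [ha]
      exact le_csSup hAbdd ⟨hc, by linarith [haA.2.1], h⟩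
    linarith
  · have h3 : b ≤ (a + b) / 2 := by
      conv_lhs => rw [hb]
      exact csInf_le hBbdd ⟨hc, h, by linarith [hbB.2.2]⟩
    linarith

end Pool.Agent.H18TB
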