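import Pool.Agent.Lib.H18TB.Defs

/-!
# M1: midpoints in a CAT(0) space
-/

set_option autoImplicit false

namespace Pool.Agent.H18TB

open Filter Topology Metric

variable {X : Type} [MetricSpace X]

theorem IsMid.symm {x y m : X} (h : IsMid x y m) : IsMid y x m :=
  ⟨by rw [dist_comm y x]; exact h.2, by rw [dist_comm y x]; exact h.1⟩

/-- Midpoints exist.  Proof: the `m` of the CAT(0) inequality, tested with `z = x` and `z = y`. -/
theorem exists_mid (hX : IsCAT0 X) (x y : X) : ∃ m : X, IsMid x y m := by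
  obtain ⟨m, hm⟩ := hX x y
  have h1 := hm x
  have h2 := hm y
  rw [dist_self, dist_comm y x] at h2
  rw [dist_self] at h1
  have hD : 0 ≤ dist x y := dist_nonneg
  have h3 : dist x m ≤ dist x y / 2 := by
    apply le_of_sq_le_sq _ (by linarith)
    nlinarith
  have h4 : dist y m ≤ dist x y / 2 := by
    apply le_of_sq_le_sq _ (by linarith)
    nlinarith
  have h5 : dist x y ≤ dist x m + dist y m := by
    rw [dist_comm y m]
    exact dist_triangle x m y
  exact ⟨m, le_antisymm h3 (by linarith), le_antisymm h4 (by linarith)⟩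

/-- The CAT(0) inequality holds for every midpoint.  Proof: let `m'` be the point of the CAT(0)
inequality; tested with `z = m` it gives `dist m m' ^ 2 ≤ 0`. -/
theorem IsMid.cn (hX : IsCAT0 X) {x y m : X} (h : IsMid x y m) (z : X) :
    dist z m ^ 2 ≤ dist z x ^ 2 / 2 + dist z y ^ 2 / 2 - dist x y ^ 2 / 4 := by
  obtain ⟨m', hm'⟩ := hX x y
  have h1 := hm' m
  rw [dist_comm m x, dist_comm m y, h.1, h.2] at h1
  have h2 : dist m m' ^ 2 ≤ 0 := by
    calc dist m m' ^ 2 ≤ (dist x y / 2) ^ 2 / 2 + (dist x y / 2) ^ 2 / 2 - dist x y ^ 2 / 4 := h1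
      _ = 0 := by ring
  have h3 : dist m m' = 0 := by
    have h4 : dist m m' ^ 2 = 0 := le_antisymm h2 (sq_nonneg _)
    exact pow_eq_zero_iff (two_ne_zero) |>.1 h4
  rw [dist_eq_zero] at h3
  rw [h3]
  exact hm' z

/-- Midpoints are unique. -/
theorem IsMid.unique (hX : IsCAT0 X) {x y m m' : X} (h : IsMid x y m) (h' : IsMid x y m') :
    m = m' := by
  have h1 := h.cn hX m'
  rw [dist_comm m' x, dist_comm m' y, h'.1, h'.2] at h1
  have h2 : dist m' m ^ 2 ≤ 0 := by
    calc dist m' m ^ 2 ≤ (dist x y / 2) ^ 2 / 2 + (dist x y / 2) ^ 2 / 2 - dist x y ^ 2 / 4 := h1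
      _ = 0 := by ring
  have h4 : dist m' m ^ 2 = 0 := le_antisymm h2 (sq_nonneg _)
  have h5 : dist m' m = 0 := pow_eq_zero_iff (two_ne_zero) |>.1 h4
  exact (dist_eq_zero.1 h5).symm

/-- Two midpoints with a common endpoint.  Proof: the CAT(0) inequality at the midpoint `p` of
`x, y` with `z = q`, then `dist y q ^ 2` is bounded by the CAT(0) inequality at the midpoint `q` of
`x, z` tested with `y`; the sum is `dist y z ^ 2 / 4`. -/
theorem dist_mid_left (hX : IsCAT0 X) {x y z p q : X} (hp : IsMid x y p) (hq : IsMid x z q) :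
    dist p q ≤ dist y z / 2 := by
  have h1 := hp.cn hX q
  have h2 := hq.cn hX y
  rw [dist_comm q x, hq.1, dist_comm q y, dist_comm q p] at h1
  rw [dist_comm y x] at h2
  have h3 : 0 ≤ dist y z := dist_nonneg
  apply le_of_sq_le_sq _ (by linarith)
  nlinarith

/-- Distance between midpoints.  Proof: `dist_mid_left` twice, through the midpoint of
`x, y'`. -/
theorem dist_mid_mid (hX : IsCAT0 X) {x y x' y' p q : X} (hp : IsMid x y p)
    (hq : IsMid x' y' q) : dist p q ≤ (dist x x' + dist y y') / 2 := by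
  obtain ⟨r, hr⟩ := exists_mid hX x y'
  have h1 := dist_mid_left hX hp hr
  have h2 := dist_mid_left hX hr.symm hq.symm
  have h3 := dist_triangle p r q
  linarith

/-- Convexity of the distance to a point, at midpoints. -/
theorem dist_mid_le (hX : IsCAT0 X) {x y p : X} (hp : IsMid x y p) (z : X) :
    dist p z ≤ (dist x z + dist y z) / 2 := by
  have hz : IsMid z z z := ⟨by rw [dist_self]; norm_num, by rw [dist_self]; norm_num⟩
  exact dist_mid_mid hX hp hz

/-- Convexity of the distance to a midpoint closed set, at midpoints.  Proof: for `a' ∈ S`,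
`b' ∈ S` nearly realising the two distances, take the midpoint `m' ∈ S` of `a'` and `b'`
and use `dist_mid_mid`. -/
theorem infDist_mid (hX : IsCAT0 X) {S : Set X} (hS : MidClosed S) (hne : S.Nonempty)
    {a b m : X} (hm : IsMid a b m) :
    infDist m S ≤ (infDist a S + infDist b S) / 2 := by
  apply le_of_forall_pos_le_add
  intro δ hδ
  obtain ⟨a', ha', ha⟩ := (infDist_lt_iff hne).1 (lt_add_of_pos_right (infDist a S) hδ)
  obtain ⟨b', hb', hb⟩ := (infDist_lt_iff hne).1 (lt_add_of_pos_right (infDist b S) hδ)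
  obtain ⟨m', hm'⟩ := exists_mid hX a' b'
  have h1 : infDist m S ≤ dist m m' := infDist_le_dist_of_mem (hS a' ha' b' hb' m' hm')
  have h2 := dist_mid_mid hX hm hm'
  linarith

/-- A point of an affine geodesic between two others is their midpoint. -/
theorem IsAff.mid {γ : ℝ → X} {a b α : ℝ} (h : IsAff γ a b α) {s t : ℝ}
    (hs : s ∈ Set.Icc a b) (ht : t ∈ Set.Icc a b) : IsMid (γ s) (γ t) (γ ((s + t) / 2)) := by
  have hm : (s + t) / 2 ∈ Set.Icc a b := by
    constructor
    · linarith [hs.1, ht.1]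
    · linarith [hs.2, ht.2]
  have e1 : |s - (s + t) / 2| = |s - t| / 2 := by
    rw [show s - (s + t) / 2 = (s - t) / 2 by ring, abs_div, abs_two]
  have e2 : |t - (s + t) / 2| = |s - t| / 2 := by
    rw [show t - (s + t) / 2 = -((s - t) / 2) by ring, abs_neg, abs_div, abs_two]
  refine ⟨?_, ?_⟩
  · rw [h s hs _ hm, h s hs t ht, e1]
    ring
  · rw [h t ht _ hm, h s hs t ht, e2]
    ring

/-- Enflo's quadrilateral inequality.  Proof: let `m` be the midpoint of `x₁, x₃`; the CAT(0)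
inequality at `m` with `z = x₂` and `z = x₄`, added, and
`dist x₂ x₄ ^ 2 ≤ (dist x₂ m + dist x₄ m) ^ 2 ≤ 2 * (dist x₂ m ^ 2 + dist x₄ m ^ 2)`. -/
theorem enflo (hX : IsCAT0 X) (x₁ x₂ x₃ x₄ : X) :
    dist x₁ x₃ ^ 2 + dist x₂ x₄ ^ 2 ≤
      dist x₁ x₂ ^ 2 + dist x₂ x₃ ^ 2 + dist x₃ x₄ ^ 2 + dist x₄ x₁ ^ 2 := by
  obtain ⟨m, hm⟩ := exists_mid hX x₁ x₃
  have h1 := hm.cn hX x₂
  have h2 := hm.cn hX x₄
  have h3 : dist x₂ x₄ ≤ dist x₂ m + dist x₄ m := by
    rw [dist_comm x₄ m]
    exact dist_triangle x₂ m x₄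
  have h4 : dist x₂ x₄ ^ 2 ≤ (dist x₂ m + dist x₄ m) ^ 2 :=
    pow_le_pow_left₀ dist_nonneg h3 2
  have h5 : 0 ≤ (dist x₂ m - dist x₄ m) ^ 2 := sq_nonneg _
  rw [dist_comm x₂ x₁] at h1
  rw [dist_comm x₄ x₃] at h2
  nlinarith

end Pool.Agent.H18TB
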