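import Pool.Agent.Lib.H18TB.Defs

/-!
# U3: limits of limit flats are limit flats
-/

set_option autoImplicit false

namespace Pool.Agent.H18TB

open Filter Topology Metric

variable {X : Type} [MetricSpace X] {k : ℕ}

/-- A limit flat of an isometric embedding is an isometric embedding (for an isometric action). -/
theorem IsLimitFlat.isometry {G : Type} [Group G] [MulAction G X]
    (hiso : ∀ (g : G) (x y : X), dist (g • x) (g • y) = dist x y)
    {i : Euc k → X} (hi : Isometry i) {u : Euc k} {j : Euc k → X} (h : IsLimitFlat G i u j) :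
    Isometry j := by
  obtain ⟨g, v, -, -, h3⟩ := h
  refine Isometry.of_dist_eq fun x y => ?_
  have h1 : Tendsto (fun n => dist (g n • i (x + v n)) (g n • i (y + v n))) atTop (𝓝 (dist (j x) (j y))) :=
    (h3 x).dist (h3 y)
  have h2 : (fun n => dist (g n • i (x + v n)) (g n • i (y + v n))) = fun _ : ℕ => dist x y := by
    funext n
    rw [hiso, hi.dist_eq, dist_add_right]
  rw [h2] at h1
  exact tendsto_nhds_unique h1 tendsto_const_nhds

/-- Proof.  Let `d : ℕ → Euc k` be dense.  For every `n` choose from `h n` a group element `g'` and a vector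
`v'` with `n ≤ ‖v'‖`, `‖‖v'‖⁻¹ • v' - u‖ ≤ 1 / (n + 1)` and
`dist (g' • i (d l + v')) (jn n (d l)) ≤ 1 / (n + 1)` for all `l ≤ n`; put `g n = hn n * g'`, `v n = v'`.
Then `dist (g n • i (d l + v n)) (hn n • jn n (d l)) ≤ 1 / (n + 1)` for `l ≤ n`, so
`g n • i (d l + v n) → j (d l)` for every `l`; all the maps `x ↦ g n • i (x + v n)` are isometries and
`j` is `1`-Lipschitz (limit of the isometries `hn n • jn n`), so the convergence holds at every point
(`ε / 3`). -/
theorem limitFlat_closed {G : Type} [Group G] [MulAction G X]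
    (hiso : ∀ (g : G) (x y : X), dist (g • x) (g • y) = dist x y)
    {i : Euc k → X} (hi : Isometry i) {u : Euc k} {jn : ℕ → Euc k → X}
    (h : ∀ n : ℕ, IsLimitFlat G i u (jn n)) (hn : ℕ → G) {j : Euc k → X}
    (hj : ∀ x : Euc k, Tendsto (fun n => hn n • jn n x) atTop (𝓝 (j x))) :
    IsLimitFlat G i u j := by
  have hjn : ∀ n, Isometry (jn n) := fun n => (h n).isometry hiso hi
  set d : ℕ → Euc k := TopologicalSpace.denseSeq (Euc k) with hd
  have hdd : DenseRange d := TopologicalSpace.denseRange_denseSeq (Euc k)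
  have key : ∀ n : ℕ, ∃ (g' : G) (v' : Euc k), (n : ℝ) ≤ ‖v'‖ ∧ ‖‖v'‖⁻¹ • v' - u‖ ≤ 1 / ((n : ℝ) + 1) ∧
      ∀ l ∈ Finset.range (n + 1), dist (g' • i (d l + v')) (jn n (d l)) ≤ 1 / ((n : ℝ) + 1) := by
    intro n
    obtain ⟨g, v, h1, h2, h3⟩ := h n
    have hpos : (0 : ℝ) < 1 / ((n : ℝ) + 1) := by positivity
    have e1 := h1.eventually_ge_atTop (n : ℝ)
    have e2 : ∀ᶠ m in atTop, ‖‖v m‖⁻¹ • v m - u‖ ≤ 1 / ((n : ℝ) + 1) := by
      have := (Metric.tendsto_nhds.1 h2) _ hpos
      filter_upwards [this] with m hm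
      rw [dist_eq_norm] at hm
      exact hm.le
    have e3 : ∀ᶠ m in atTop, ∀ l ∈ Finset.range (n + 1),
        dist (g m • i (d l + v m)) (jn n (d l)) ≤ 1 / ((n : ℝ) + 1) := by
      rw [Filter.eventually_all_finset]
      intro l _
      have := (Metric.tendsto_nhds.1 (h3 (d l))) _ hpos
      filter_upwards [this] with m hm using hm.le
    obtain ⟨m, hm1, hm2, hm3⟩ := (e1.and (e2.and e3)).exists
    exact ⟨g m, v m, hm1, hm2, hm3⟩
  choose g' v' hv1 hv2 hv3 using key
  have hone : Tendsto (fun n : ℕ => 1 / ((n : ℝ) + 1)) atTop (𝓝 0) := tendsto_one_div_add_atTop_nhds_zero_nat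
  refine ⟨fun n => hn n * g' n, v', ?_, ?_, ?_⟩
  · exact tendsto_atTop_mono hv1 tendsto_natCast_atTop_atTop
  · rw [tendsto_iff_norm_sub_tendsto_zero]
    exact squeeze_zero (fun n => norm_nonneg _) hv2 hone
  · intro x
    rw [Metric.tendsto_atTop]
    intro ε hε
    obtain ⟨l, hl⟩ := hdd.exists_dist_lt x (show (0 : ℝ) < ε / 6 by positivity)
    obtain ⟨N1, hN1⟩ := (Metric.tendsto_atTop.1 (hj x)) (ε / 3) (by positivity)
    obtain ⟨N2, hN2⟩ := (Metric.tendsto_atTop.1 hone) (ε / 3) (by positivity)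
    refine ⟨max (max N1 N2) l, fun n hn' => ?_⟩
    have hn1 : N1 ≤ n := (le_max_left _ _).trans ((le_max_left _ _).trans hn')
    have hn2 : N2 ≤ n := (le_max_right _ _).trans ((le_max_left _ _).trans hn')
    have hn3 : l ≤ n := (le_max_right _ _).trans hn'
    have a1 := hN1 n hn1
    have a2 := hN2 n hn2
    rw [Real.dist_eq, sub_zero, abs_of_nonneg (by positivity)] at a2
    have a3 := hv3 n l (Finset.mem_range.2 (by omega))
    have b1 : dist ((hn n * g' n) • i (x + v' n)) ((hn n * g' n) • i (d l + v' n)) = dist x (d l) := by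
      rw [hiso, hi.dist_eq, dist_add_right]
    have b2 : dist ((hn n * g' n) • i (d l + v' n)) (hn n • jn n (d l)) ≤ 1 / ((n : ℝ) + 1) := by
      rw [mul_smul, hiso]
      exact a3
    have b3 : dist (hn n • jn n (d l)) (hn n • jn n x) = dist (d l) x := by
      rw [hiso, (hjn n).dist_eq]
    calc dist ((hn n * g' n) • i (x + v' n)) (j x)
        ≤ dist ((hn n * g' n) • i (x + v' n)) ((hn n * g' n) • i (d l + v' n)) +
            dist ((hn n * g' n) • i (d l + v' n)) (j x) := dist_triangle _ _ _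
      _ ≤ dist ((hn n * g' n) • i (x + v' n)) ((hn n * g' n) • i (d l + v' n)) +
            (dist ((hn n * g' n) • i (d l + v' n)) (hn n • jn n (d l)) +
              dist (hn n • jn n (d l)) (j x)) := by
          gcongr
          exact dist_triangle _ _ _
      _ ≤ dist ((hn n * g' n) • i (x + v' n)) ((hn n * g' n) • i (d l + v' n)) +
            (dist ((hn n * g' n) • i (d l + v' n)) (hn n • jn n (d l)) +
              (dist (hn n • jn n (d l)) (hn n • jn n x) + dist (hn n • jn n x) (j x))) := by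
          gcongr
          exact dist_triangle _ _ _
      _ < ε := by
          rw [b1, b3, dist_comm (d l) x]
          linarith

end Pool.Agent.H18TB
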