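import Pool.Agent.Lib.H18TB.U2
import Pool.Agent.Lib.H18TB.U3

/-!
# U4: a regular direction is an interior point of the boundary of the flat
-/

set_option autoImplicit false

namespace Pool.Agent.H18TB

open Filter Topology Metric

variable {X : Type} [MetricSpace X] {k : ℕ}

/-- Proof.  Suppose not.  For every `n` let `jn n`, `L` be given by `exists_farLine` with `M = 2 ^ n`,
and `hn n ∈ G` with `hn n • jn n 0 ∈ K`.  By `arzela` a subsequence `φ` of
`x ↦ hn n • jn n x` converges pointwise to some `j`, a limit flat by `limitFlat_closed`.  For every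
`l : ℕ` the flats `hn (φ n) • jn (φ n)` have, for `φ n ≥ l`, a far line with `M = 2 ^ l`
(`FarLine.pow`, `FarLine.smul`), so `j` has one (`FarLine.limit`).  By regularity there is
`C` with: for a far line `L` of `j` some `x` has `dist (L 0) (j x) ≤ C`; with
`2 ^ l > C` this contradicts `2 ^ l ≤ dist (L 0) (j x)`. -/
theorem interior_of_regular [ProperSpace X] (hX : IsCAT0 X) (G : Type) [Group G] [MulAction G X]
    (hiso : ∀ (g : G) (x y : X), dist (g • x) (g • y) = dist x y)
    (hco : ∃ K : Set X, IsCompact K ∧ ∀ x : X, ∃ g : G, g • x ∈ K)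
    {i : Euc k → X} (hi : Isometry i) {u : Euc k}
    (hu : ‖u‖ = 1) (hreg : RegularDirection G i u) : InteriorDirection i u := by
  by_contra hnot
  have hex := fun n : ℕ => exists_farLine hX G hiso hco hi hu hnot (M := (2 : ℝ) ^ n) (by positivity)
  choose jn L hlim hjiso hfar using hex
  obtain ⟨K, hK, hKG⟩ := hco
  choose gg hgg using fun n : ℕ => hKG (jn n 0)
  obtain ⟨R0, hR0⟩ := hK.isBounded.subset_closedBall (i 0)
  have hdist : ∀ (n : ℕ) (s t : Euc k), dist (gg n • jn n s) (gg n • jn n t) = dist s t := by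
    intro n s t
    rw [hiso, (hjiso n).dist_eq]
  obtain ⟨φ, hφ, j, hj⟩ := arzela (fun (n : ℕ) (x : Euc k) => gg n • jn n x) (i 0)
    (fun t => ⟨dist t 0 + R0, Eventually.of_forall fun n => by
      have h1 : dist (gg n • jn n 0) (i 0) ≤ R0 := hR0 (hgg n)
      have h2 := dist_triangle (gg n • jn n t) (gg n • jn n 0) (i 0)
      rw [hdist n t 0] at h2
      show dist (gg n • jn n t) (i 0) ≤ dist t 0 + R0
      linarith⟩)
    (fun s t => Eventually.of_forall fun n => (hdist n s t).le)
  have hjlim : IsLimitFlat G i u j :=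
    limitFlat_closed hiso hi (jn := fun n => jn (φ n)) (fun n => hlim (φ n)) (fun n => gg (φ n)) hj
  obtain ⟨C, hC⟩ := hreg j hjlim
  obtain ⟨l, hl⟩ := pow_unbounded_of_one_lt C (one_lt_two : (1 : ℝ) < 2)
  obtain ⟨L', hL1, hL2, hL3⟩ : ∃ L' : ℝ → X, FarLine j u ((2 : ℝ) ^ l) L' := by
    refine FarLine.limit (jn := fun n x => gg (φ n) • jn (φ n) x) hj ?_
    filter_upwards [eventually_ge_atTop l] with n hn
    obtain ⟨L1, hL1⟩ := FarLine.pow hX (hjiso (φ n)) hu (hn.trans (hφ.id_le n))
      ⟨L (φ n), hfar (φ n)⟩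
    exact ⟨_, hL1.smul hiso (gg (φ n))⟩
  obtain ⟨x, hx⟩ := hC L' hL1 ⟨_, fun t => (hL2 t).le⟩
  have := hL3 x
  linarith

end Pool.Agent.H18TB
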