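import Pool.Agent.Lib.H18TB.P1
import Pool.Agent.Lib.H18TB.U4
import Pool.Agent.Lib.H18TB.F1
import Pool.Agent.Lib.H18TB.F2
import Pool.Agent.Lib.H18TB.E1

/-!
# Main: assembly
-/

set_option autoImplicit false

namespace Pool.Agent.H18TB

open Filter Topology Metric

theorem main_theorem (X : Type) [MetricSpace X] [LocallyCompactSpace X] (G : Type) [Group G]
    [MulAction G X] (hX : IsCAT0 X)
    (hiso : ∀ (g : G) (x y : X), dist (g • x) (g • y) = dist x y)
    (hco : ∃ K : Set X, IsCompact K ∧ ∀ x : X, ∃ g : G, g • x ∈ K)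
    (k : ℕ) (i : Euc k → X) (hi : Isometry i) (u : Euc k) (hu : ‖u‖ = 1) :
    (RegularDirection G i u → InteriorDirection i u) ∧
    (TranslationCocompact G i → (InteriorDirection i u ↔ ParallelSetNear i u)) ∧
    (InteriorDirection i u → HasRelCompactOpen X) := by
  have : ProperSpace X := proper_of_cocompact hX G hiso hco
  have h1 : RegularDirection G i u → InteriorDirection i u :=
    interior_of_regular hX G hiso hco hi hu
  refine ⟨h1, fun htr => ⟨near_of_interior hX hiso hi hu htr, fun hP => ?_⟩,
    hasRelCompactOpen_of_interior hX hi hu⟩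
  exact h1 (regular_of_periodic hiso hi htr hP)

end Pool.Agent.H18TB
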