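import Pool.Agent.Lib.H18TB.M1

/-!
# P1: a locally compact CAT(0) space with a cocompact isometric action is proper
-/

set_option autoImplicit false

namespace Pool.Agent.H18TB

open Filter Topology Metric

/-- Proof.  Let `K` be compact with `∀ x, ∃ g, g • x ∈ K`.  By
`IsCompact.exists_isCompact_cthickening` there is `δ > 0` with `cthickening δ K` compact.  For
every `x`, with `g • x ∈ K`, `closedBall (g • x) δ` is a closed subset of `cthickening δ K`, hence
compact, and `closedBall x δ` is its image under the isometry `g⁻¹`.  So all closed balls of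
radius `δ` are compact.

If all closed balls of radius `R > 0` are compact then so are all closed balls of radius
`3 * R / 2`: `closedBall x (3 * R / 4)` is compact, so it is covered by finitely many balls
`ball (y k) (R / 4)`; if `dist z x ≤ 3 * R / 2` and `m` is the midpoint of `z` and `x`
(`exists_mid`) then `dist m x ≤ 3 * R / 4` and `dist z m ≤ 3 * R / 4`, so
`dist z (y k) ≤ R` for some `k`: `closedBall x (3 * R / 2)` is a closed subset of a finite
union of compact sets.

By induction closed balls of radius `(3 / 2) ^ n * δ` are compact, and every closed ball is a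
closed subset of one of these (`ProperSpace` constructor, or `ProperSpace.of_isCompact_closedBall_of_le`). -/
theorem proper_of_cocompact {X : Type} [MetricSpace X] [LocallyCompactSpace X] (hX : IsCAT0 X)
    (G : Type) [Group G] [MulAction G X] (hiso : ∀ (g : G) (x y : X), dist (g • x) (g • y) = dist x y)
    (hco : ∃ K : Set X, IsCompact K ∧ ∀ x : X, ∃ g : G, g • x ∈ K) : ProperSpace X := by
  obtain ⟨K, hK, hKc⟩ := hco
  obtain ⟨δ, hδ, hδK⟩ := hK.exists_isCompact_cthickening
  have h0 : ∀ x : X, IsCompact (closedBall x δ) := by
    intro x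
    obtain ⟨g, hg⟩ := hKc x
    have h1 : IsCompact (closedBall (g • x) δ) :=
      hδK.of_isClosed_subset isClosed_closedBall (closedBall_subset_cthickening hg δ)
    have h2 : Continuous fun y : X => g⁻¹ • y :=
      (Isometry.of_dist_eq fun y z => hiso g⁻¹ y z).continuous
    refine (h1.image h2).of_isClosed_subset isClosed_closedBall ?_
    intro y hy
    refine ⟨g • y, ?_, inv_smul_smul g y⟩
    rw [mem_closedBall] at hy ⊢
    rw [hiso]
    exact hy
  have hstep : ∀ R : ℝ, 0 < R → (∀ x : X, IsCompact (closedBall x R)) →
      ∀ x : X, IsCompact (closedBall x (3 / 2 * R)) := by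
    intro R hR hc x
    have h1 : IsCompact (closedBall x (3 / 4 * R)) :=
      (hc x).of_isClosed_subset isClosed_closedBall (closedBall_subset_closedBall (by linarith))
    obtain ⟨t, -, htf, htc⟩ := h1.finite_cover_balls (show (0 : ℝ) < R / 4 by linarith)
    have h2 : IsCompact (⋃ y ∈ t, closedBall y R) := htf.isCompact_biUnion fun y _ => hc y
    refine h2.of_isClosed_subset isClosed_closedBall ?_
    intro z hz
    rw [mem_closedBall] at hz
    obtain ⟨m, hm1, hm2⟩ := exists_mid hX z x
    have h3 : m ∈ closedBall x (3 / 4 * R) := by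
      rw [mem_closedBall, dist_comm]
      linarith
    obtain ⟨y, hy, hmy⟩ := Set.mem_iUnion₂.mp (htc h3)
    rw [mem_ball] at hmy
    refine Set.mem_iUnion₂.mpr ⟨y, hy, ?_⟩
    rw [mem_closedBall]
    have h4 := dist_triangle z m y
    linarith
  have hall : ∀ n : ℕ, ∀ x : X, IsCompact (closedBall x ((3 / 2 : ℝ) ^ n * δ)) := by
    intro n
    induction n with
    | zero => simpa using h0
    | succ n ih =>
      have h := hstep _ (by positivity) ih
      intro x
      have h' := h x
      rwa [← mul_assoc, ← pow_succ'] at h'
  refine ⟨fun x r => ?_⟩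
  obtain ⟨n, hn⟩ := pow_unbounded_of_one_lt (r / δ) (show (1 : ℝ) < 3 / 2 by norm_num)
  refine (hall n x).of_isClosed_subset isClosed_closedBall (closedBall_subset_closedBall ?_)
  rw [div_lt_iff₀ hδ] at hn
  exact hn.le

end Pool.Agent.H18TB
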