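import Pool.Agent.Lib.H18TB.G2

/-!
# U1: the line in the middle of two parallel lines
-/

set_option autoImplicit false

namespace Pool.Agent.H18TB

open Filter Topology Metric

variable {X : Type} [MetricSpace X]

/-- Shifted distances.  Proof.  By `line_dist_const` applied to `L` and `t ↦ L' (t + τ)`, the distance
`dist (L t) (L' (t + τ)) = e τ` does not depend on `t`, for every real `τ`; likewise for `-τ`.
`enflo` for the four points `L 0, L τ, L' τ, L' 0` gives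
`dist (L 0) (L' τ) ^ 2 + dist (L τ) (L' 0) ^ 2 ≤ τ ^ 2 + a ^ 2 + τ ^ 2 + a ^ 2`. -/
theorem parallel_shift (hX : IsCAT0 X) {L L' : ℝ → X} (hL : IsLine L) (hL' : IsLine L')
    {a : ℝ} (ha : ∀ t : ℝ, dist (L t) (L' t) ≤ a) (s t τ : ℝ) :
    dist (L s) (L' (s + τ)) ^ 2 + dist (L t) (L' (t - τ)) ^ 2 ≤ 2 * (τ ^ 2 + a ^ 2) := by
  have hb : ∀ (σ t : ℝ), dist (L t) (L' (t + σ)) ≤ a + |σ| := by
    intro σ t
    have h1 := dist_triangle (L t) (L' t) (L' (t + σ))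
    have h2 := hL' t (t + σ)
    have h3 : |t - (t + σ)| = |σ| := by
      rw [show t - (t + σ) = -σ by ring, abs_neg]
    have h4 := ha t
    rw [h2, h3] at h1
    linarith
  have h1 : dist (L s) (L' (s + τ)) = dist (L 0) (L' (0 + τ)) :=
    line_dist_const hX hL (hL'.shift τ) (fun t => hb τ t) s 0
  have h2 : dist (L t) (L' (t + -τ)) = dist (L τ) (L' (τ + -τ)) :=
    line_dist_const hX hL (hL'.shift (-τ)) (fun t => hb (-τ) t) t τ
  rw [← sub_eq_add_neg, add_neg_cancel] at h2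
  rw [zero_add] at h1
  rw [h1, h2]
  have h3 := enflo hX (L 0) (L τ) (L' τ) (L' 0)
  have h4 : dist (L 0) (L τ) ^ 2 = τ ^ 2 := by
    rw [hL 0 τ, sq_abs]
    ring
  have h5 : dist (L' τ) (L' 0) ^ 2 = τ ^ 2 := by
    rw [hL' τ 0, sq_abs]
    ring
  have h6 : dist (L τ) (L' τ) ^ 2 ≤ a ^ 2 := pow_le_pow_left₀ dist_nonneg (ha τ) 2
  have h7 : dist (L' 0) (L 0) ^ 2 ≤ a ^ 2 := by
    rw [dist_comm]
    exact pow_le_pow_left₀ dist_nonneg (ha 0) 2
  rw [h4, h5] at h3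
  linarith

/-- Proof.  `dist (m s) (m t) ≤ |s - t|` by `dist_mid_mid`.  Let `s < t`, `τ > 0`.  Going from
`L (s - τ)` through `m s`, `m t` to `L (t + τ)`:
`t - s + 2 * τ ≤ dist (L (s - τ)) (m s) + dist (m s) (m t) + dist (m t) (L (t + τ))`, and by
`dist_mid_le` `dist (m s) (L (s - τ)) ≤ (τ + e₁) / 2`, `dist (m t) (L (t + τ)) ≤ (τ + e₂) / 2` where
`e₁ = dist (L' s) (L (s - τ))`, `e₂ = dist (L' t) (L (t + τ))`, and `(e₁ + e₂) ^ 2 ≤ 2 * (e₁ ^ 2 + e₂ ^ 2)
≤ 4 * (τ ^ 2 + a ^ 2)` by `parallel_shift`.  So `dist (m s) (m t) ≥ (t - s) - (sqrt (τ ^ 2 + a ^ 2) - τ)`,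
and `sqrt (τ ^ 2 + a ^ 2) - τ ≤ a ^ 2 / τ → 0` as `τ → ∞`. -/
theorem midline (hX : IsCAT0 X) {L L' m : ℝ → X} (hL : IsLine L) (hL' : IsLine L')
    {a : ℝ} (ha : ∀ t : ℝ, dist (L t) (L' t) ≤ a) (hm : ∀ t : ℝ, IsMid (L t) (L' t) (m t)) :
    IsLine m := by
  have hle : ∀ s t : ℝ, dist (m s) (m t) ≤ |s - t| := by
    intro s t
    have h1 := dist_mid_mid hX (hm s) (hm t)
    rw [hL s t, hL' s t] at h1
    linarith
  -- the lower bound, for a given `τ`
  have hge : ∀ s t τ : ℝ, s ≤ t → 0 < τ → (t - s) - a ^ 2 / τ ≤ dist (m s) (m t) := by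
    intro s t τ hst hτ
    have h1 : dist (L (s - τ)) (L (t + τ)) = t - s + 2 * τ := by
      rw [hL (s - τ) (t + τ), abs_of_nonpos (by linarith)]
      ring
    have h2 := dist_triangle4 (L (s - τ)) (m s) (m t) (L (t + τ))
    have h3 := dist_mid_le hX (hm s) (L (s - τ))
    have h4 := dist_mid_le hX (hm t) (L (t + τ))
    have h5 : dist (L s) (L (s - τ)) = τ := by
      rw [hL s (s - τ), show s - (s - τ) = τ by ring, abs_of_pos hτ]
    have h6 : dist (L t) (L (t + τ)) = τ := by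
      rw [hL t (t + τ), show t - (t + τ) = -τ by ring, abs_neg, abs_of_pos hτ]
    have h7 := parallel_shift hX hL hL' ha (s - τ) (t + τ) τ
    rw [sub_add_cancel, add_sub_cancel_right, dist_comm (L (s - τ)), dist_comm (L (t + τ))] at h7
    obtain ⟨e₁, he₁⟩ : ∃ e : ℝ, e = dist (L' s) (L (s - τ)) := ⟨_, rfl⟩
    obtain ⟨e₂, he₂⟩ : ∃ e : ℝ, e = dist (L' t) (L (t + τ)) := ⟨_, rfl⟩
    rw [dist_comm (L (s - τ)) (m s)] at h2
    rw [← he₁, ← he₂] at h7
    rw [h5, ← he₁] at h3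
    rw [h6, ← he₂] at h4
    rw [h1] at h2
    have h8 : e₁ + e₂ ≤ 2 * τ + 2 * (a ^ 2 / τ) := by
      have h9 : (e₁ + e₂) ^ 2 ≤ 4 * (τ ^ 2 + a ^ 2) := by nlinarith [sq_nonneg (e₁ - e₂)]
      have h10 : 0 ≤ a ^ 2 / τ := by positivity
      have h11 : a ^ 2 / τ * τ = a ^ 2 := by
        field_simp
      have h12 : (e₁ + e₂) ^ 2 ≤ (2 * τ + 2 * (a ^ 2 / τ)) ^ 2 := by
        nlinarith [sq_nonneg (a ^ 2 / τ), sq_nonneg a]
      exact (pow_le_pow_iff_left₀ (by rw [he₁, he₂]; positivity) (by positivity) two_ne_zero).1 h12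
    linarith
  intro s t
  have hmain : ∀ s t : ℝ, s ≤ t → t - s ≤ dist (m s) (m t) := by
    intro s t hst
    apply le_of_forall_pos_le_add
    intro ε hε
    have hτ : 0 < (a ^ 2 + 1) / ε := by positivity
    have h1 := hge s t ((a ^ 2 + 1) / ε) hst hτ
    have h2 : a ^ 2 / ((a ^ 2 + 1) / ε) ≤ ε := by
      rw [div_le_iff₀ hτ, mul_div_cancel₀]
      · linarith
      · exact hε.ne'
    linarith
  apply le_antisymm (hle s t)
  rcases le_total s t with hst | hst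
  · rw [abs_of_nonpos (by linarith)]
    have := hmain s t hst
    linarith
  · rw [abs_of_nonneg (by linarith), dist_comm]
    have := hmain t s hst
    linarith

end Pool.Agent.H18TB
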