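import Pool.Agent.Lib.H18TB.U1
import Pool.Agent.Lib.H18TB.D3

/-!
# U2: far lines: halving, translating, limits
-/

set_option autoImplicit false

namespace Pool.Agent.H18TB

open Filter Topology Metric

variable {X : Type} [MetricSpace X] {k : ℕ}

/-- Halving.  Proof.  Let `m t` be the midpoint of `L t` and `j (t • u)` (`exists_mid`); it is a line by
`midline` (with `flat_line0`); `dist (m t) (j (t • u)) = M / 2`; and
`dist (m 0) (j x) ≥ dist (L 0) (j x) - dist (L 0) (m 0) ≥ M - M / 2`. -/
theorem FarLine.half (hX : IsCAT0 X) {j : Euc k → X} (hj : Isometry j) {u : Euc k}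
    (hu : ‖u‖ = 1) {M : ℝ} {L : ℝ → X} (h : FarLine j u M L) :
    ∃ L' : ℝ → X, FarLine j u (M / 2) L' := by
  obtain ⟨hL, hd, hf⟩ := h
  choose m hm using fun t : ℝ => exists_mid hX (L t) (j (t • u))
  have hmid : ∀ t : ℝ, dist (L t) (m t) = M / 2 ∧ dist (m t) (j (t • u)) = M / 2 := by
    intro t
    have h1 := (hm t).1
    have h2 := (hm t).2
    rw [hd t] at h1 h2
    exact ⟨h1, by rw [dist_comm]; exact h2⟩
  refine ⟨m, midline hX hL (flat_line0 hj hu) (a := M) (fun t => le_of_eq (hd t)) hm,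
    fun t => (hmid t).2, fun x => ?_⟩
  have h1 := hf x
  have h2 := (hmid 0).1
  have h3 := dist_triangle (L 0) (m 0) (j x)
  linarith

/-- Proof: `FarLine.half`, `n - l` times. -/
theorem FarLine.pow (hX : IsCAT0 X) {j : Euc k → X} (hj : Isometry j) {u : Euc k}
    (hu : ‖u‖ = 1) {n l : ℕ} (hln : l ≤ n) (h : ∃ L : ℝ → X, FarLine j u ((2 : ℝ) ^ n) L) :
    ∃ L : ℝ → X, FarLine j u ((2 : ℝ) ^ l) L := by
  induction n, hln using Nat.le_induction with
  | base => exact h
  | succ n _ ih =>
    apply ih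
    obtain ⟨L, hL⟩ := h
    obtain ⟨L', hL'⟩ := FarLine.half hX hj hu hL
    refine ⟨L', ?_⟩
    have : (2 : ℝ) ^ (n + 1) / 2 = 2 ^ n := by
      rw [pow_succ]
      ring
    rw [this] at hL'
    exact hL'

theorem FarLine.smul {G : Type} [Group G] [MulAction G X]
    (hiso : ∀ (g : G) (x y : X), dist (g • x) (g • y) = dist x y) (g : G) {j : Euc k → X}
    {u : Euc k} {M : ℝ} {L : ℝ → X} (h : FarLine j u M L) :
    FarLine (fun x => g • j x) u M (fun t => g • L t) := by
  obtain ⟨hL, hd, hf⟩ := h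
  refine ⟨fun s t => ?_, fun t => ?_, fun x => ?_⟩
  · show dist (g • L s) (g • L t) = _
    rw [hiso]
    exact hL s t
  · show dist (g • L t) (g • j (t • u)) = _
    rw [hiso]
    exact hd t
  · show M ≤ dist (g • L 0) (g • j x)
    rw [hiso]
    exact hf x

/-- Far lines pass to limits.  Proof.  Choose far lines `L n` of `jn n` for large `n` (and constant maps for
the other `n`).  `dist (L n t) (jn n (t • u)) = M` and `jn n (t • u)` converges, so `L n t` is
bounded in `n`; by `arzela` a subsequence converges pointwise to some `L`; pass to the limit in the three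
conditions. -/
theorem FarLine.limit [ProperSpace X] {jn : ℕ → Euc k → X} {j : Euc k → X} {u : Euc k} {M : ℝ}
    (hj : ∀ x : Euc k, Tendsto (fun n => jn n x) atTop (𝓝 (j x)))
    (h : ∀ᶠ n in atTop, ∃ L : ℝ → X, FarLine (jn n) u M L) :
    ∃ L : ℝ → X, FarLine j u M L := by
  classical
  obtain ⟨f, hf⟩ : ∃ f : ℕ → ℝ → X, ∀ᶠ n in atTop, FarLine (jn n) u M (f n) := by
    refine ⟨fun n => if hn : ∃ L : ℝ → X, FarLine (jn n) u M L then Classical.choose hn
      else fun _ => jn n 0, ?_⟩
    filter_upwards [h] with n hn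
    rw [dif_pos hn]
    exact Classical.choose_spec hn
  obtain ⟨φ, hφ, F, hF⟩ := arzela f (j 0)
    (by
      intro t
      refine ⟨M + 1 + dist (j (t • u)) (j 0), ?_⟩
      have h1 : ∀ᶠ n in atTop, dist (jn n (t • u)) (j (t • u)) < 1 :=
        (hj (t • u)).eventually (Metric.ball_mem_nhds _ one_pos)
      filter_upwards [hf, h1] with n hn h1n
      have h2 := hn.2.1 t
      have h3 := dist_triangle (f n t) (jn n (t • u)) (j 0)
      have h4 := dist_triangle (jn n (t • u)) (j (t • u)) (j 0)
      linarith)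
    (by
      intro s t
      filter_upwards [hf] with n hn
      rw [hn.1 s t, Real.dist_eq])
  have hfφ : ∀ᶠ n in atTop, FarLine (jn (φ n)) u M (f (φ n)) :=
    hφ.tendsto_atTop.eventually hf
  have hjφ : ∀ x : Euc k, Tendsto (fun n => jn (φ n) x) atTop (𝓝 (j x)) :=
    fun x => (hj x).comp hφ.tendsto_atTop
  refine ⟨F, fun s t => ?_, fun t => ?_, fun x => ?_⟩
  · refine tendsto_nhds_unique ((hF s).dist (hF t)) ?_
    refine Tendsto.congr' ?_ tendsto_const_nhds
    filter_upwards [hfφ] with n hn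
    exact (hn.1 s t).symm
  · refine tendsto_nhds_unique ((hF t).dist (hjφ (t • u))) ?_
    refine Tendsto.congr' ?_ tendsto_const_nhds
    filter_upwards [hfφ] with n hn
    exact (hn.2.1 t).symm
  · refine ge_of_tendsto ((hF 0).dist (hjφ x)) ?_
    filter_upwards [hfφ] with n hn
    exact hn.2.2 x

end Pool.Agent.H18TB
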